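import Pool.Agent.Y830.MO.Sites

/-!
Partial summation.
-/

set_option autoImplicit false

namespace Pool.Agent.Y830.MO

open Finset

open Classical in
/-- a monotone function as a combination of indicator functions -/
theorem layer {f : ℝ → ℝ} {δ : ℝ} (hδ : 0 ≤ δ) (hf : ∀ a b, 0 ≤ a → a ≤ b → f b ≤ f a) :
    ∀ (J : ℕ) (l : ℝ), 0 ≤ l → l ≤ J * δ → f l ≤ f (J * δ) +
      ∑ j ∈ range J, (f (j * δ) - f ((j + 1 : ℕ) * δ)) * (if l ≤ (j + 1 : ℕ) * δ then 1 else 0) := by
  intro J
  induction J with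
  | zero =>
    intro l h0 h1
    rw [Nat.cast_zero, zero_mul] at h1
    rw [le_antisymm h1 h0]
    simp
  | succ J ih =>
    intro l h0 h1
    rw [sum_range_succ]
    have hJ : (J : ℝ) * δ ≤ ((J + 1 : ℕ) : ℝ) * δ := by
      refine mul_le_mul_of_nonneg_right ?_ hδ
      push_cast
      linarith
    have hd : f (((J + 1 : ℕ) : ℝ) * δ) ≤ f (J * δ) := hf _ _ (by positivity) hJ
    rcases le_or_gt l (J * δ) with h2 | h2
    · have h3 := ih l h0 h2
      rw [if_pos h1]
      linarith
    · have h3 : f l ≤ f (J * δ) := hf _ _ (by positivity) h2.le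
      rw [if_pos h1]
      have h4 : 0 ≤ ∑ j ∈ range J, (f (j * δ) - f ((j + 1 : ℕ) * δ)) *
          (if l ≤ (j + 1 : ℕ) * δ then (1 : ℝ) else 0) := by
        refine sum_nonneg fun j _ => mul_nonneg ?_ (by split_ifs <;> norm_num)
        have : (j : ℝ) * δ ≤ ((j + 1 : ℕ) : ℝ) * δ := by
          refine mul_le_mul_of_nonneg_right ?_ hδ
          push_cast
          linarith
        have := hf _ _ (by positivity) this
        linarith
      linarith

theorem tele {f : ℝ → ℝ} {δ α β : ℝ} (J : ℕ) :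
    f (J * δ) * (α * (J * δ) + β) + ∑ j ∈ range J, (f (j * δ) - f ((j + 1 : ℕ) * δ)) *
      (α * ((j + 1 : ℕ) * δ) + β) = β * f 0 + α * (δ * ∑ j ∈ range J, f (j * δ)) := by
  induction J with
  | zero => simp; ring
  | succ J ih =>
    rw [sum_range_succ, sum_range_succ]
    have e : ((J + 1 : ℕ) : ℝ) = J + 1 := by push_cast; ring
    rw [e]
    linear_combination ih

open Classical in
theorem wsum {f : ℝ → ℝ} (hf : ∀ a b, 0 ≤ a → a ≤ b → f b ≤ f a) (hf0 : ∀ a, 0 ≤ a → 0 ≤ f a)
    {D : Finset ℕ} {a l : ℕ → ℝ} {r α β : ℝ} (hr : 0 ≤ r)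
    (hl : ∀ d ∈ D, 0 ≤ l d ∧ l d ≤ r) (ha : ∀ d ∈ D, 0 ≤ a d)
    (hA : ∀ s, 0 ≤ s → s ≤ r → ∑ d ∈ D.filter (fun d => l d ≤ s), a d ≤ α * s + β)
    {J : ℕ} (hJ : 1 ≤ J) :
    ∑ d ∈ D, a d * f (l d) ≤ β * f 0 + α * (r / J * ∑ j ∈ range J, f (j * (r / J))) := by
  set δ : ℝ := r / J with hδ
  have hJ0 : (0 : ℝ) < J := by exact_mod_cast hJ
  have hδ0 : 0 ≤ δ := by positivity
  have hJδ : J * δ = r := by rw [hδ]; field_simp
  rw [← tele J, hJδ]
  have h1 : ∑ d ∈ D, a d * f (l d) ≤ ∑ d ∈ D, (f r * a d + ∑ j ∈ range J,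
      (f (j * δ) - f ((j + 1 : ℕ) * δ)) * (if l d ≤ (j + 1 : ℕ) * δ then a d else 0)) := by
    refine sum_le_sum fun d hd => ?_
    have h2 := mul_le_mul_of_nonneg_left (layer hδ0 hf J (l d) (hl d hd).1
      (by rw [hJδ]; exact (hl d hd).2)) (ha d hd)
    refine h2.trans (le_of_eq ?_)
    rw [hJδ, mul_add, mul_sum, mul_comm]
    congr 1
    refine sum_congr rfl fun j _ => ?_
    split_ifs <;> ring
  refine h1.trans ?_
  rw [sum_add_distrib, ← mul_sum, sum_comm]
  refine add_le_add ?_ ?_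
  · have h2 := hA r hr le_rfl
    rw [filter_true_of_mem fun d hd => (hl d hd).2] at h2
    exact mul_le_mul_of_nonneg_left h2 (hf0 r hr)
  · refine sum_le_sum fun j hj => ?_
    rw [← mul_sum, ← sum_filter]
    rw [mem_range] at hj
    have h3 : ((j + 1 : ℕ) : ℝ) * δ ≤ r := by
      rw [← hJδ]
      refine mul_le_mul_of_nonneg_right ?_ hδ0
      exact_mod_cast hj
    have h4 : (j : ℝ) * δ ≤ ((j + 1 : ℕ) : ℝ) * δ := by
      refine mul_le_mul_of_nonneg_right ?_ hδ0
      push_cast
      linarith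
    have h5 := hf _ _ (by positivity) h4
    exact mul_le_mul_of_nonneg_left (hA _ (by positivity) h3) (by linarith)

/-- the constant of Maynard's problem divided by `k` -/
noncomputable def mk (k : ℕ) : ℝ := if k = 1 then 1 else Real.log k / (k - 1)

theorem riemann {b r : ℝ} {k : ℕ} (hk : 1 ≤ k) (hr : 0 ≤ r) (hrb : r ≤ b) (hb : 0 < b) {J : ℕ}
    (hJ : 1 ≤ J) :
    r / J * ∑ j ∈ range J, 1 / (b + (k - 1) * (j * (r / J))) ≤ mk k + 1 / J := by
  have hJ0 : (0 : ℝ) < J := by exact_mod_cast hJ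
  unfold mk
  split_ifs with h1
  · subst h1
    have h2 : ∀ j ∈ range J, 1 / (b + (((1 : ℕ) : ℝ) - 1) * (j * (r / J))) = 1 / b := by
      intro j _
      rw [Nat.cast_one, sub_self, zero_mul, add_zero]
    rw [sum_congr rfl h2, sum_const, card_range, nsmul_eq_mul]
    have h3 : r / J * (J * (1 / b)) = r / b := by field_simp
    rw [h3]
    have h4 : r / b ≤ 1 := (div_le_one hb).2 hrb
    have : (0 : ℝ) ≤ 1 / J := by positivity
    linarith
  · have hk2 : 2 ≤ k := by omega
    have hk2r : (2 : ℝ) ≤ k := by exact_mod_cast hk2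
    set δ : ℝ := r / J with hδ
    have hδ0 : 0 ≤ δ := by positivity
    have hJδ : J * δ = r := by rw [hδ]; field_simp
    have hbj : ∀ j : ℕ, 0 < b + ((k : ℝ) - 1) * (j * δ) := fun j => by
      have : 0 ≤ ((k : ℝ) - 1) * (j * δ) := mul_nonneg (by linarith) (by positivity)
      linarith
    have h2 : ∀ n : ℕ, δ * ∑ j ∈ range n, 1 / (b + (k - 1) * (j * δ)) ≤
        δ * (1 / b - 1 / (b + (k - 1) * (n * δ))) +
          1 / (k - 1) * (Real.log (b + (k - 1) * (n * δ)) - Real.log b) := by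
      intro n
      induction n with
      | zero => simp
      | succ n ih =>
        rw [sum_range_succ, mul_add]
        set x := b + ((k : ℝ) - 1) * (n * δ) with hx
        set z := b + ((k : ℝ) - 1) * ((n + 1 : ℕ) * δ) with hz
        have hx0 : 0 < x := hbj n
        have hz0 : 0 < z := hbj (n + 1)
        have hzx : z = x + (k - 1) * δ := by rw [hz, hx]; push_cast; ring
        have h3 := Real.one_sub_inv_le_log_of_pos (div_pos hz0 hx0)
        rw [Real.log_div hz0.ne' hx0.ne', inv_div] at h3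
        have h4 : 1 - x / z = (k - 1) * (δ * (1 / z)) := by
          have : z - x = (k - 1) * δ := by rw [hzx]; ring
          field_simp
          linarith
        rw [h4] at h3
        have h5 : 1 / ((k : ℝ) - 1) * ((k - 1) * (δ * (1 / z))) = δ * (1 / z) := by
          have : (k : ℝ) - 1 ≠ 0 := by linarith
          field_simp
        have h6 := mul_le_mul_of_nonneg_left h3
          (one_div_nonneg.2 (by linarith : (0 : ℝ) ≤ (k : ℝ) - 1))
        rw [h5] at h6
        have h7 : 1 / ((k : ℝ) - 1) * (Real.log z - Real.log b) =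
            1 / ((k : ℝ) - 1) * (Real.log z - Real.log x) +
              1 / ((k : ℝ) - 1) * (Real.log x - Real.log b) := by ring
        rw [h7]
        linarith
    refine (h2 J).trans ?_
    rw [hJδ]
    have h3 : δ * (1 / b - 1 / (b + (k - 1) * r)) ≤ 1 / J := by
      have h4 : 0 ≤ 1 / (b + ((k : ℝ) - 1) * r) := by
        have := hbj J
        rw [hJδ] at this
        positivity
      have h5 : δ * (1 / b - 1 / (b + (k - 1) * r)) ≤ δ * (1 / b) :=
        mul_le_mul_of_nonneg_left (by linarith) hδ0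
      refine h5.trans ?_
      rw [hδ, div_mul_div_comm, mul_one, div_le_div_iff₀ (by positivity) hJ0]
      nlinarith
    have h4 : Real.log (b + (k - 1) * r) - Real.log b ≤ Real.log k := by
      have h5 : Real.log (b + (k - 1) * r) ≤ Real.log (k * b) := by
        refine Real.log_le_log (by have := hbj J; rwa [hJδ] at this) ?_
        nlinarith
      rw [Real.log_mul (by linarith) hb.ne'] at h5
      linarith
    have h5 := mul_le_mul_of_nonneg_left h4
      (one_div_nonneg.2 (by linarith : (0 : ℝ) ≤ (k : ℝ) - 1))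
    have h6 : 1 / ((k : ℝ) - 1) * Real.log k = Real.log k / (k - 1) := by ring
    linarith

open Classical in
/-- the sum against the kernel -/
theorem kernel {D : Finset ℕ} {a l : ℕ → ℝ} {b r α β : ℝ} {k : ℕ} (hk : 1 ≤ k) (hr : 0 ≤ r)
    (hrb : r ≤ b) (hb : 0 < b) (hα : 0 ≤ α)
    (hl : ∀ d ∈ D, 0 ≤ l d ∧ l d ≤ r) (ha : ∀ d ∈ D, 0 ≤ a d)
    (hA : ∀ s, 0 ≤ s → s ≤ r → ∑ d ∈ D.filter (fun d => l d ≤ s), a d ≤ α * s + β) :
    ∑ d ∈ D, a d * (1 / (b + (k - 1) * l d)) ≤ β / b + α * mk k := by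
  have hk1 : (0 : ℝ) ≤ k - 1 := by
    have : (1 : ℝ) ≤ k := by exact_mod_cast hk
    linarith
  have hpos : ∀ x : ℝ, 0 ≤ x → 0 < b + ((k : ℝ) - 1) * x := fun x hx => by
    have := mul_nonneg hk1 hx
    linarith
  have key : ∀ J : ℕ, 1 ≤ J → ∑ d ∈ D, a d * (1 / (b + (k - 1) * l d)) ≤
      β / b + α * mk k + α * (1 / J) := by
    intro J hJ
    have h1 := wsum (f := fun x => 1 / (b + ((k : ℝ) - 1) * x)) (fun x z hx hxz =>
      one_div_le_one_div_of_le (hpos x hx) (by have := mul_le_mul_of_nonneg_left hxz hk1; linarith))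
      (fun x hx => one_div_nonneg.2 (hpos x hx).le) hr hl ha hA hJ
    refine h1.trans ?_
    have h2 := mul_le_mul_of_nonneg_left (riemann hk hr hrb hb hJ) hα
    have h3 : β * (1 / (b + ((k : ℝ) - 1) * 0)) = β / b := by rw [mul_zero, add_zero]; ring
    rw [h3]
    linarith
  refine le_of_forall_pos_le_add fun ε hε => ?_
  obtain ⟨J, hJ⟩ := exists_nat_gt (α / ε)
  have hJ1 : 1 ≤ J := by
    have h1 : 0 ≤ α / ε := by positivity
    have h2 : (0 : ℝ) < J := lt_of_le_of_lt h1 hJ
    have h3 : 0 < J := by exact_mod_cast h2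
    exact h3
  refine (key J hJ1).trans ?_
  have hJ0 : (0 : ℝ) < J := by exact_mod_cast hJ1
  have h1 : α * (1 / J) ≤ ε := by
    rw [mul_one_div, div_le_iff₀ hJ0]
    rw [div_lt_iff₀ hε] at hJ
    linarith
  linarith

/-! ### partial summation for the reciprocals -/

theorem abel_id (r : ℕ → Prop) [DecidablePred r] (n : ℕ) :
    ∑ d ∈ (Icc 1 n).filter r, 1 / (d : ℝ) = (((Icc 1 n).filter r).card : ℝ) / (n + 1) +
      ∑ u ∈ Icc 1 n, (((Icc 1 u).filter r).card : ℝ) / (u * (u + 1)) := by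
  induction n with
  | zero => simp
  | succ n ih =>
    have h1 : Icc 1 (n + 1) = insert (n + 1) (Icc 1 n) := by
      ext x
      simp only [mem_Icc, mem_insert]
      omega
    have h2 : n + 1 ∉ Icc 1 n := by simp
    have hc : (((Icc 1 (n + 1)).filter r).card : ℝ) =
        ((Icc 1 n).filter r).card + (if r (n + 1) then 1 else 0) := by
      rw [h1, filter_insert]
      split_ifs with h3
      · rw [card_insert_of_notMem fun h4 => h2 (mem_filter.1 h4).1]
        push_cast
        ring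
      · ring
    have hs : ∑ d ∈ (Icc 1 (n + 1)).filter r, 1 / (d : ℝ) =
        ∑ d ∈ (Icc 1 n).filter r, 1 / (d : ℝ) + (if r (n + 1) then 1 else 0) / ((n : ℝ) + 1) := by
      rw [h1, filter_insert]
      split_ifs with h3
      · rw [sum_insert fun h4 => h2 (mem_filter.1 h4).1]
        push_cast
        ring
      · ring
    have hs2 : ∑ u ∈ Icc 1 (n + 1), (((Icc 1 u).filter r).card : ℝ) / (u * (u + 1)) =
        ∑ u ∈ Icc 1 n, (((Icc 1 u).filter r).card : ℝ) / (u * (u + 1)) +
          (((Icc 1 (n + 1)).filter r).card : ℝ) / (((n : ℝ) + 1) * ((n : ℝ) + 1 + 1)) := by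
      rw [h1, sum_insert h2, ← h1]
      push_cast
      ring
    rw [hs, hs2, ih, hc]
    push_cast
    have hn1 : (n : ℝ) + 1 ≠ 0 := by positivity
    have hn2 : (n : ℝ) + 1 + 1 ≠ 0 := by positivity
    field_simp
    ring

theorem sum_inv_succ (n : ℕ) : ∑ u ∈ Icc 1 n, 1 / ((u : ℝ) + 1) ≤ Real.log (n + 1) := by
  induction n with
  | zero => simp
  | succ n ih =>
    rw [Finset.sum_Icc_succ_top (by omega)]
    push_cast
    have h1 : (0 : ℝ) < (n : ℝ) + 1 := by positivity
    have h2 : (0 : ℝ) < (n : ℝ) + 1 + 1 := by positivity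
    have h3 := Real.one_sub_inv_le_log_of_pos (div_pos h2 h1)
    rw [Real.log_div h2.ne' h1.ne', inv_div] at h3
    have h4 : 1 - ((n : ℝ) + 1) / (n + 1 + 1) = 1 / ((n : ℝ) + 1 + 1) := by field_simp; ring
    linarith

theorem sum_min (M n : ℕ) : ∑ u ∈ Icc 1 n, min (u : ℝ) M / (u * (u + 1)) ≤
    Real.log (M + 1) + 1 := by
  have h : ∀ n : ℕ, ∑ u ∈ Icc 1 n, min (u : ℝ) M / (u * (u + 1)) ≤
      if n ≤ M then Real.log (n + 1) else Real.log (M + 1) + 1 - M / (n + 1) := by
    intro n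
    induction n with
    | zero => simp
    | succ n ih =>
      rw [Finset.sum_Icc_succ_top (by omega)]
      push_cast
      have h1 : (0 : ℝ) < (n : ℝ) + 1 := by positivity
      have h2 : (0 : ℝ) < (n : ℝ) + 1 + 1 := by positivity
      rcases lt_trichotomy n M with h3 | h3 | h3
      · rw [if_pos h3.le] at ih
        rw [if_pos (by omega : n + 1 ≤ M)]
        have h4 : (n : ℝ) + 1 ≤ M := by exact_mod_cast h3
        rw [min_eq_left h4]
        have h5 := Real.one_sub_inv_le_log_of_pos (div_pos h2 h1)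
        rw [Real.log_div h2.ne' h1.ne', inv_div] at h5
        have h6 : 1 - ((n : ℝ) + 1) / (n + 1 + 1) =
            ((n : ℝ) + 1) / (((n : ℝ) + 1) * (n + 1 + 1)) := by field_simp; ring
        linarith
      · subst h3
        rw [if_pos le_rfl] at ih
        rw [if_neg (by omega : ¬ n + 1 ≤ n)]
        have h4 : min ((n : ℝ) + 1) n = n := min_eq_right (by linarith)
        rw [h4]
        have h6 : (n : ℝ) / (((n : ℝ) + 1) * (n + 1 + 1)) + n / ((n : ℝ) + 1 + 1) ≤ 1 := by
          have : (n : ℝ) / (((n : ℝ) + 1) * (n + 1 + 1)) + n / ((n : ℝ) + 1 + 1) =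
              n / ((n : ℝ) + 1) := by field_simp; ring
          rw [this, div_le_one h1]
          linarith
        linarith
      · rw [if_neg (by omega : ¬ n ≤ M)] at ih
        rw [if_neg (by omega : ¬ n + 1 ≤ M)]
        have h4 : (M : ℝ) ≤ (n : ℝ) + 1 := by exact_mod_cast (by omega : M ≤ n + 1)
        rw [min_eq_right h4]
        have h6 : (M : ℝ) / (((n : ℝ) + 1) * (n + 1 + 1)) = M / ((n : ℝ) + 1) - M / (n + 1 + 1) := by
          field_simp
          ring
        linarith
  refine (h n).trans ?_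
  split_ifs with h1
  · have : Real.log ((n : ℝ) + 1) ≤ Real.log (M + 1) := by
      refine Real.log_le_log (by positivity) ?_
      have : (n : ℝ) ≤ M := by exact_mod_cast h1
      linarith
    linarith
  · have : 0 ≤ (M : ℝ) / (n + 1) := by positivity
    linarith

theorem recip {r : ℕ → Prop} [DecidablePred r] {v : ℝ} {M : ℕ} (hv : 0 ≤ v)
    (hc : ∀ u : ℕ, (((Icc 1 u).filter r).card : ℝ) ≤ v * u + M) (n : ℕ) :
    ∑ d ∈ (Icc 1 n).filter r, 1 / (d : ℝ) ≤ v * Real.log (n + 1) + Real.log (M + 1) + 2 := by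
  rw [abel_id]
  have hcu : ∀ u : ℕ, (((Icc 1 u).filter r).card : ℝ) ≤ u := by
    intro u
    have h1 := card_filter_le (Icc 1 u) r
    rw [Nat.card_Icc, Nat.add_sub_cancel] at h1
    exact_mod_cast h1
  have h1 : (((Icc 1 n).filter r).card : ℝ) / (n + 1) ≤ 1 := by
    rw [div_le_one (by positivity)]
    have := hcu n
    linarith
  have h2 : ∑ u ∈ Icc 1 n, (((Icc 1 u).filter r).card : ℝ) / (u * (u + 1)) ≤
      ∑ u ∈ Icc 1 n, (v * (1 / ((u : ℝ) + 1)) + min (u : ℝ) M / (u * (u + 1))) := by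
    refine sum_le_sum fun u hu => ?_
    have hu0 : (0 : ℝ) < u := by exact_mod_cast (mem_Icc.1 hu).1
    have h3 : v * (1 / ((u : ℝ) + 1)) = v * u / (u * (u + 1)) := by field_simp
    rw [h3, ← add_div]
    refine div_le_div_of_nonneg_right ?_ (by positivity)
    rcases le_total (u : ℝ) M with h4 | h4
    · rw [min_eq_left h4]
      have := hcu u
      have : 0 ≤ v * u := by positivity
      linarith
    · rw [min_eq_right h4]
      exact hc u
  rw [sum_add_distrib, ← mul_sum] at h2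
  have h3 := mul_le_mul_of_nonneg_left (sum_inv_succ n) hv
  have h4 := sum_min M n
  linarith

end Pool.Agent.Y830.MO
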