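import Pool.Agent.Y830.MO.Op

/-!
The component operators for different primes commute; levels.
-/

set_option autoImplicit false

namespace Pool.Agent.Y830.MO

open Finset
open Pool.Agent.Y835.SB Pool.Agent.Y830.SQ

/-- linear operators that commute with the multiplication by functions of period `M` -/
def Op (M : ℕ) (T : (ℕ → ℝ) → (ℕ → ℝ)) : Prop :=
  (∀ F G, T (F - G) = T F - T G) ∧ ∀ v, Function.Periodic v M → ∀ F, T (v * F) = v * T F

theorem Op.zero {M : ℕ} {T : (ℕ → ℝ) → (ℕ → ℝ)} (h : Op M T) : T 0 = 0 := by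
  have h1 := h.1 0 0
  rw [sub_zero, sub_self] at h1
  exact h1

theorem Op.add {M : ℕ} {T : (ℕ → ℝ) → (ℕ → ℝ)} (h : Op M T) (F G : ℕ → ℝ) :
    T (F + G) = T F + T G := by
  have h1 := h.1 (F + G) G
  rw [add_sub_cancel_right] at h1
  rw [h1, sub_add_cancel]

theorem Op.sum {M : ℕ} {T : (ℕ → ℝ) → (ℕ → ℝ)} (h : Op M T) {ι : Type} (s : Finset ι)
    (f : ι → ℕ → ℝ) : T (∑ i ∈ s, f i) = ∑ i ∈ s, T (f i) := by
  classical
  induction s using Finset.induction_on with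
  | empty => rw [sum_empty, sum_empty, h.zero]
  | insert i s hi ih => rw [sum_insert hi, sum_insert hi, h.add, ih]

theorem AA_op (N p : ℕ) : Op (Mc N p) (AA N p) := by
  refine ⟨fun F G => Av_sub _ _ F G, fun v hv F => ?_⟩
  funext n
  unfold AA
  rw [Pi.mul_apply, mul_comm (v n), ← Av_mul hv]
  congr 1
  funext m
  rw [Pi.mul_apply, mul_comm]

theorem BB_eq (N h p : ℕ) (F : ℕ → ℝ) :
    BB N h p F = (fun _ => 1 / ((p : ℝ) - 1)) * AA N p (uu p h * F) := by
  funext n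
  rw [Pi.mul_apply]
  unfold BB
  have e : (fun m => uu p h m * F m) = uu p h * F := rfl
  rw [e]
  ring

theorem CC_eq (N h p : ℕ) (F : ℕ → ℝ) :
    CC N h p F = F - AA N p F - uu p h * BB N h p F := rfl

theorem BB_op (N h p : ℕ) : Op (Mc N p) (BB N h p) := by
  refine ⟨fun F G => ?_, fun v hv F => ?_⟩
  · rw [BB_eq, BB_eq, BB_eq, mul_sub, (AA_op N p).1, mul_sub]
  · rw [BB_eq, BB_eq, mul_left_comm, (AA_op N p).2 v hv, mul_left_comm]

theorem CC_op (N h p : ℕ) : Op (Mc N p) (CC N h p) := by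
  refine ⟨fun F G => ?_, fun v hv F => ?_⟩
  · rw [CC_eq, CC_eq, CC_eq, (AA_op N p).1, (BB_op N h p).1]
    ring
  · rw [CC_eq, CC_eq, (AA_op N p).2 v hv, (BB_op N h p).2 v hv]
    ring

theorem comm_of {N h p q : ℕ} {T : (ℕ → ℝ) → (ℕ → ℝ)} (hT : Op (Mc N p) T)
    (hTA : ∀ F, T (AA N q F) = AA N q (T F)) (hq : q ∣ Mc N p) :
    (∀ F, T (BB N h q F) = BB N h q (T F)) ∧ ∀ F, T (CC N h q F) = CC N h q (T F) := by
  have hB : ∀ F, T (BB N h q F) = BB N h q (T F) := by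
    intro F
    rw [BB_eq, BB_eq, hT.2 _ (fun _ => rfl), hTA, hT.2 _ (uu_per h hq)]
  refine ⟨hB, fun F => ?_⟩
  rw [CC_eq, CC_eq, hT.1, hT.1, hTA, hT.2 _ (uu_per h hq), hB]

/-- all the commutation relations -/
theorem comm_all {N p q : ℕ} (h h' : ℕ) (hq : q ∣ Mc N p) (hp : p ∣ Mc N q) (F : ℕ → ℝ) :
    AA N p (AA N q F) = AA N q (AA N p F) ∧
    AA N p (BB N h q F) = BB N h q (AA N p F) ∧
    AA N p (CC N h q F) = CC N h q (AA N p F) ∧
    BB N h' p (AA N q F) = AA N q (BB N h' p F) ∧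
    BB N h' p (BB N h q F) = BB N h q (BB N h' p F) ∧
    BB N h' p (CC N h q F) = CC N h q (BB N h' p F) ∧
    CC N h' p (AA N q F) = AA N q (CC N h' p F) ∧
    CC N h' p (BB N h q F) = BB N h q (CC N h' p F) ∧
    CC N h' p (CC N h q F) = CC N h q (CC N h' p F) := by
  have hAA : ∀ p q : ℕ, ∀ F, AA N p (AA N q F) = AA N q (AA N p F) := fun p q F =>
    Av_comm _ _ _ _ F
  have h1 := comm_of (h := h) (AA_op N p) (hAA p q) hq
  have h2 := comm_of (h := h') (AA_op N q) (hAA q p) hp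
  have h3 := comm_of (h := h) (BB_op N h' p) (fun F => (h2.1 F).symm) hq
  have h4 := comm_of (h := h) (CC_op N h' p) (fun F => (h2.2 F).symm) hq
  exact ⟨hAA p q F, h1.1 F, h1.2 F, (h2.1 F).symm, h3.1 F, h3.2 F, (h2.2 F).symm, h4.1 F, h4.2 F⟩

/-- a function of period `Mc N p` has no components -/
theorem BB_zero {N h p : ℕ} (hN : 0 < N) (hp : p.Prime) (hpN : p ∣ N) {F : ℕ → ℝ}
    (hF : Function.Periodic F (Mc N p)) :
    AA N p F = F ∧ BB N h p F = 0 ∧ CC N h p F = 0 := by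
  have hD := dc hN hp hpN
  have hpm := mem_singleton_self p
  have hMK : Mc N p * Kc N p = N := hD.mul p hpm
  have hK0 : 0 < Kc N p := hD.Kpos hpm
  have hFN : Function.Periodic F N := per_of_dvd hF (Dvd.intro _ hMK)
  have hA : AA N p F = F := Av_of_per hK0 hF
  have h1 := (stepM hN hp hpN h hFN (U := fun _ => 0) (fun _ => rfl) fun _ => le_rfl).2.2
  have h2 : yy N (Mc N) (Kc N) F h p = 0 := by
    unfold yy
    refine sum_eq_zero fun n _ => ?_
    have h3 : Av (Mc N p) (Kc N p) F = F := hA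
    rw [h3, sub_self]
    simp
  rw [h2, mul_zero] at h1
  have hp2 : (2 : ℝ) ≤ p := by exact_mod_cast hp.two_le
  have h3 : SS N (BB N h p F) = 0 := by
    refine le_antisymm ?_ (SS_nonneg _ _)
    by_contra h4
    rw [not_le] at h4
    have : 0 < ((p : ℝ) - 1) * SS N (BB N h p F) := mul_pos (by linarith) h4
    linarith
  have hBN : Function.Periodic (BB N h p F) N := BB_per hpN hFN
  have hB : BB N h p F = 0 := by
    funext n
    have h4 : ∀ m ∈ range N, BB N h p F m ^ 2 = 0 :=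
      (sum_eq_zero_iff_of_nonneg fun _ _ => sq_nonneg _).1 h3
    have h5 := h4 (n % N) (mem_range.2 (Nat.mod_lt _ hN))
    rw [sq_eq_zero_iff] at h5
    have h6 : BB N h p F n = BB N h p F (n % N) := by
      have := hBN.nat_mul (n / N) (n % N)
      rw [Nat.cast_id, mul_comm, Nat.mod_add_div] at this
      exact this
    rw [h6, h5]
    rfl
  refine ⟨hA, hB, ?_⟩
  rw [CC_eq, hA, hB, mul_zero, sub_self, sub_zero]

open Classical in
/-- the functions of level `r` (logarithmic) with respect to the primes of the list -/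
def Lvl (N : ℕ) (ps : List ℕ) (r : ℝ) (V : ℕ → ℝ) : Prop :=
  ∃ (I : Finset ℕ) (T : ℕ → Finset ℕ) (f : ℕ → ℕ → ℝ),
    (∀ i ∈ I, Function.Periodic (f i) N ∧ (∀ p ∈ ps, p ∉ T i → Function.Periodic (f i) (Mc N p)) ∧
      ((ps.filter (fun p => p ∈ T i)).map (fun p : ℕ => Real.log p)).sum ≤ r) ∧
    V = ∑ i ∈ I, f i

theorem logs_nonneg (ps : List ℕ) : 0 ≤ (ps.map (fun p : ℕ => Real.log p)).sum := by
  refine List.sum_nonneg fun x hx => ?_
  obtain ⟨p, _, rfl⟩ := List.mem_map.1 hx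
  exact Real.log_natCast_nonneg p

theorem Lvl.per {N : ℕ} {ps : List ℕ} {r : ℝ} {V : ℕ → ℝ} (h : Lvl N ps r V) :
    Function.Periodic V N := by
  obtain ⟨I, T, f, h1, rfl⟩ := h
  intro n
  rw [Finset.sum_apply, Finset.sum_apply]
  exact sum_congr rfl fun i hi => (h1 i hi).1 n

theorem Lvl.neg {N : ℕ} {ps : List ℕ} {r : ℝ} {V : ℕ → ℝ} (h : Lvl N ps r V) (hr : r < 0) :
    V = 0 := by
  classical
  obtain ⟨I, T, f, h1, rfl⟩ := h
  rcases I.eq_empty_or_nonempty with h2 | ⟨i, hi⟩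
  · rw [h2, sum_empty]
  · have h3 := (h1 i hi).2.2
    have h4 := logs_nonneg (ps.filter (fun p => p ∈ T i))
    linarith

/-- the hypotheses on the primes -/
def Prs (N : ℕ) (ps : List ℕ) : Prop := 0 < N ∧ ps.Nodup ∧ ∀ p ∈ ps, p.Prime ∧ p ∣ N

theorem Prs.tail {N p : ℕ} {ps : List ℕ} (h : Prs N (p :: ps)) : Prs N ps :=
  ⟨h.1, (List.nodup_cons.1 h.2.1).2, fun q hq => h.2.2 q (List.mem_cons_of_mem _ hq)⟩

theorem Prs.head {N p : ℕ} {ps : List ℕ} (h : Prs N (p :: ps)) : p.Prime ∧ p ∣ N :=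
  h.2.2 p List.mem_cons_self

theorem Prs.dvd {N p : ℕ} {ps : List ℕ} (h : Prs N (p :: ps)) {q : ℕ} (hq : q ∈ ps) :
    p ∣ Mc N q ∧ q ∣ Mc N p := by
  have hne : q ≠ p := by
    rintro rfl
    exact (List.nodup_cons.1 h.2.1).1 hq
  have hD := datc h.1 (Q := {p, q}) fun x hx => by
    rcases mem_insert.1 hx with rfl | hx
    · exact h.head
    · rw [mem_singleton] at hx
      subst hx
      exact h.2.2 x (List.mem_cons_of_mem _ hq)
  exact ⟨hD.dvd q (by simp) p (by simp) hne.symm, hD.dvd p (by simp) q (by simp) hne⟩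

theorem Lvl.AA {N p : ℕ} {ps : List ℕ} {r : ℝ} {V : ℕ → ℝ}
    (h : Lvl N (p :: ps) r V) : Lvl N ps r (AA N p V) := by
  classical
  obtain ⟨I, T, f, h1, rfl⟩ := h
  refine ⟨I, T, fun i => MO.AA N p (f i), fun i hi => ?_, (AA_op N p).sum I f⟩
  obtain ⟨h2, h3, h4⟩ := h1 i hi
  refine ⟨AA_per h2, fun q hq hqT => AA_per (h3 q (List.mem_cons_of_mem _ hq) hqT), ?_⟩
  refine le_trans ?_ h4
  rw [List.filter_cons]
  split_ifs
  · rw [List.map_cons, List.sum_cons]
    have := Real.log_natCast_nonneg p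
    convert le_add_of_nonneg_left this
  · convert le_rfl

theorem Lvl.op {N p : ℕ} {ps : List ℕ} {r : ℝ} {V : ℕ → ℝ} (hP : Prs N (p :: ps))
    (h : Lvl N (p :: ps) r V) {T0 : (ℕ → ℝ) → (ℕ → ℝ)} (hT : Op (Mc N p) T0)
    (hT0 : ∀ F, Function.Periodic F (Mc N p) → T0 F = 0)
    (hTp : ∀ F m, p ∣ m → Function.Periodic F m → Function.Periodic (T0 F) m) :
    Lvl N ps (r - Real.log p) (T0 V) := by
  classical
  obtain ⟨I, T, f, h1, rfl⟩ := h
  refine ⟨I.filter (fun i => p ∈ T i), T, fun i => T0 (f i), fun i hi => ?_, ?_⟩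
  · rw [mem_filter] at hi
    obtain ⟨h2, h3, h4⟩ := h1 i hi.1
    refine ⟨hTp _ _ hP.head.2 h2, fun q hq hqT => hTp _ _ (hP.dvd hq).1
      (h3 q (List.mem_cons_of_mem _ hq) hqT), ?_⟩
    rw [List.filter_cons, if_pos (by simpa using hi.2), List.map_cons, List.sum_cons] at h4
    have h5 : ((ps.filter (fun p => p ∈ T i)).map (fun p : ℕ => Real.log p)).sum ≤
        r - Real.log p := by
      refine le_sub_iff_add_le'.2 ?_
      convert h4
    convert h5
  · rw [hT.sum, sum_filter]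
    refine sum_congr rfl fun i hi => ?_
    split_ifs with h2
    · rfl
    · exact hT0 _ ((h1 i hi).2.1 p List.mem_cons_self h2)

theorem Lvl.BB {N p : ℕ} {ps : List ℕ} {r : ℝ} {V : ℕ → ℝ} (hP : Prs N (p :: ps))
    (h : Lvl N (p :: ps) r V) (s : ℕ) : Lvl N ps (r - Real.log p) (BB N s p V) :=
  h.op hP (BB_op N s p) (fun _ hF => (BB_zero hP.1 hP.head.1 hP.head.2 hF).2.1)
    fun _ _ hpm hF => BB_per hpm hF

theorem Lvl.CC {N p : ℕ} {ps : List ℕ} {r : ℝ} {V : ℕ → ℝ} (hP : Prs N (p :: ps))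
    (h : Lvl N (p :: ps) r V) (s : ℕ) : Lvl N ps (r - Real.log p) (CC N s p V) :=
  h.op hP (CC_op N s p) (fun _ hF => (BB_zero hP.1 hP.head.1 hP.head.2 hF).2.2)
    fun _ _ hpm hF => CC_per hpm hF

end Pool.Agent.Y830.MO
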