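import Pool.Agent.Y830.MO.Com

/-!
The inequality for families of functions, by induction over the primes.
-/

set_option autoImplicit false

namespace Pool.Agent.Y830.MO

open Finset
open Pool.Agent.Y835.SB Pool.Agent.Y830.SQ

open Classical in
/-- the indicator that `n + h` is free of the primes of the list -/
noncomputable def Ud (ps : List ℕ) (h n : ℕ) : ℝ := if ∀ q ∈ ps, ¬ q ∣ n + h then 1 else 0

/-- the normalised free mass -/
noncomputable def JJ (N h : ℕ) (ps : List ℕ) (V : ℕ → ℝ) : ℝ :=
  (ps.map (fun p : ℕ => (p : ℝ) / (p - 1))).prod * ∑ n ∈ range N, V n ^ 2 * Ud ps h n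

theorem Ud_nonneg (ps : List ℕ) (h n : ℕ) : 0 ≤ Ud ps h n := by
  unfold Ud; split_ifs <;> norm_num

theorem Ud_per {ps : List ℕ} {m : ℕ} (h : ℕ) (hm : ∀ q ∈ ps, q ∣ m) :
    Function.Periodic (Ud ps h) m := by
  intro n
  unfold Ud
  refine if_congr (forall₂_congr fun q hq => not_congr ?_) rfl rfl
  rw [show n + m + h = n + h + m by ring]
  exact (Nat.dvd_add_iff_left (hm q hq)).symm

theorem prodf_nonneg {ps : List ℕ} (hp : ∀ p ∈ ps, p.Prime) :
    0 ≤ (ps.map (fun p : ℕ => (p : ℝ) / (p - 1))).prod := by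
  refine List.prod_nonneg fun x hx => ?_
  obtain ⟨p, hp1, rfl⟩ := List.mem_map.1 hx
  have h1 : (2 : ℝ) ≤ p := by exact_mod_cast (hp p hp1).two_le
  exact div_nonneg (by linarith) (by linarith)

theorem JJ_step {N p h : ℕ} {ps : List ℕ} (hP : Prs N (p :: ps)) {V : ℕ → ℝ}
    (hV : Function.Periodic V N) :
    JJ N h (p :: ps) V ≤ JJ N h ps (AA N p V + BB N h p V) + p / (p - 1) * JJ N h ps (CC N h p V) := by
  classical
  have h1 := (stepM hP.1 hP.head.1 hP.head.2 h hV (U := Ud ps h)
    (Ud_per h fun q hq => (hP.dvd hq).2) (Ud_nonneg ps h)).1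
  unfold JJ
  rw [List.map_cons, List.prod_cons]
  have h2 := mul_le_mul_of_nonneg_left h1 (prodf_nonneg fun q hq => (hP.tail.2.2 q hq).1)
  have h3 : ∀ n, (if p ∣ n + h then 0 else V n ^ 2) * Ud ps h n = V n ^ 2 * Ud (p :: ps) h n := by
    intro n
    unfold Ud
    by_cases h4 : p ∣ n + h
    · rw [if_pos h4, if_neg (c := ∀ q ∈ p :: ps, ¬ q ∣ n + h), zero_mul, mul_zero]
      intro h5
      exact h5 p List.mem_cons_self h4
    · rw [if_neg h4]
      congr 1
      refine if_congr ?_ rfl rfl
      rw [List.forall_mem_cons]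
      simp [h4]
  rw [sum_congr rfl fun n _ => h3 n] at h2
  set D := (ps.map (fun p : ℕ => (p : ℝ) / (p - 1))).prod with hD
  refine le_of_eq_of_le ?_ (h2.trans (le_of_eq ?_))
  · ring
  · simp only [Pi.add_apply]
    ring

/-- the weight functional -/
noncomputable def WW (N h : ℕ) (k lam : ℝ) : List ℕ → (ℕ → ℝ) → ℝ → ℝ → ℝ
  | [], V, x, y => (lam - y + (k - 1) * x) * SS N V
  | p :: ps, V, x, y => WW N h k lam ps (AA N p V) x y +
      (p - 1) * WW N h k lam ps (BB N h p V) (x + Real.log p) y +
      WW N h k lam ps (CC N h p V) x (y + Real.log p)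

open Classical in
/-- the dual functional -/
noncomputable def TT (k lam ρ : ℝ) : List ℕ → ℝ → ℝ → ℝ
  | [], x, y => if x + y ≤ ρ then 1 / (lam - y + (k - 1) * x) else 0
  | p :: ps, x, y => TT k lam ρ ps x y + TT k lam ρ ps (x + Real.log p) y / (p - 1)

theorem SS_zero (N : ℕ) : SS N 0 = 0 := by
  unfold SS
  exact sum_eq_zero fun n _ => by simp

theorem WW_nonneg {N h : ℕ} {k lam ρ : ℝ} (hk : 1 ≤ k) (hl : ρ ≤ lam) : ∀ {ps : List ℕ},
    Prs N ps → ∀ {V : ℕ → ℝ} {x y : ℝ}, 0 ≤ x → Lvl N ps (ρ - x - y) V →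
      0 ≤ WW N h k lam ps V x y := by
  intro ps
  induction ps with
  | nil =>
    intro _ V x y hx hV
    unfold WW
    rcases lt_or_ge (ρ - x - y) 0 with h1 | h1
    · rw [hV.neg h1, SS_zero, mul_zero]
    · refine mul_nonneg ?_ (SS_nonneg _ _)
      have : 0 ≤ (k - 1) * x := mul_nonneg (by linarith) hx
      linarith
  | cons p ps ih =>
    intro hP V x y hx hV
    unfold WW
    have hl := Real.log_natCast_nonneg p
    have hp2 : (2 : ℝ) ≤ p := by exact_mod_cast hP.head.1.two_le
    have h1 := ih hP.tail hx hV.AA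
    have h2 := ih hP.tail (V := BB N h p V) (x := x + Real.log p) (y := y) (by linarith)
      (by rw [show ρ - (x + Real.log p) - y = ρ - x - y - Real.log p by ring]; exact hV.BB hP h)
    have h3 := ih hP.tail (V := CC N h p V) (x := x) (y := y + Real.log p) hx
      (by rw [show ρ - x - (y + Real.log p) = ρ - x - y - Real.log p by ring]; exact hV.CC hP h)
    have h4 : 0 ≤ ((p : ℝ) - 1) * WW N h k lam ps (BB N h p V) (x + Real.log p) y :=
      mul_nonneg (by linarith) h2
    linarith

theorem TT_nonneg {k lam ρ : ℝ} (hk : 1 ≤ k) (hl : ρ ≤ lam) : ∀ {ps : List ℕ},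
    (∀ p ∈ ps, p.Prime) → ∀ {x y : ℝ}, 0 ≤ x → 0 ≤ TT k lam ρ ps x y := by
  intro ps
  induction ps with
  | nil =>
    intro _ x y hx
    unfold TT
    split_ifs with h1
    · have : 0 ≤ (k - 1) * x := mul_nonneg (by linarith) hx
      exact one_div_nonneg.2 (by linarith)
    · exact le_rfl
  | cons p ps ih =>
    intro hP x y hx
    unfold TT
    have hl := Real.log_natCast_nonneg p
    have hp2 : (2 : ℝ) ≤ p := by exact_mod_cast (hP p List.mem_cons_self).two_le
    have h1 := ih (fun q hq => hP q (List.mem_cons_of_mem _ hq)) (x := x) (y := y) hx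
    have h2 := ih (fun q hq => hP q (List.mem_cons_of_mem _ hq)) (x := x + Real.log p) (y := y)
      (by linarith)
    have := div_nonneg h2 (by linarith : (0 : ℝ) ≤ (p : ℝ) - 1)
    linarith

theorem SS_per_ext {N : ℕ} (F : ℕ → ℝ) : JJ N 0 [] F = SS N F := by
  unfold JJ SS Ud
  simp

theorem JJ_nil (N h : ℕ) (F : ℕ → ℝ) : JJ N h [] F = SS N F := by
  unfold JJ SS Ud
  simp

/-- the family inequality -/
theorem fam {N h : ℕ} {k lam ρ η κ : ℝ} (hk : 1 ≤ k) (hl : ρ < lam) (hη : 0 ≤ η) (hκ : 0 ≤ κ) :
    ∀ {ps : List ℕ}, Prs N ps → (∀ p ∈ ps, (p : ℝ) / (p - 1) ≤ Real.exp (η * Real.log p)) →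
    ∀ (ι : Type) [Fintype ι] (V : ι → ℕ → ℝ) (x g : ι → ℝ) (y : ℝ), (∀ j, 0 < g j) →
      (∀ j, 0 ≤ x j) → (∀ j, Lvl N ps (ρ - x j - y) (V j)) →
      (∀ y', y ≤ y' → y' ≤ ρ → ∑ j, g j * TT k lam ρ ps (x j) y' ≤ κ) →
      JJ N h ps (∑ j, V j) ≤
        κ * Real.exp (η * (ρ - y)) * ∑ j, 1 / g j * WW N h k lam ps (V j) (x j) y := by
  classical
  intro ps
  induction ps with
  | nil =>
    intro _ _ ι _ V x g y hg hx hV hT
    rw [JJ_nil]
    rcases lt_or_ge ρ y with h1 | h1
    · have h2 : ∀ j, V j = 0 := fun j => (hV j).neg (by have := hx j; linarith)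
      have h3 : ∑ j, V j = 0 := sum_eq_zero fun j _ => h2 j
      rw [h3, SS_zero]
      have h4 : ∑ j, 1 / g j * WW N h k lam [] (V j) (x j) y = 0 := by
        refine sum_eq_zero fun j _ => ?_
        unfold WW
        rw [h2 j, SS_zero, mul_zero, mul_zero]
      rw [h4, mul_zero]
    · have hT' := hT y le_rfl h1
      have h2 : ∀ n, (∑ j, V j n) ^ 2 ≤ κ * ∑ j, 1 / g j * ((lam - y + (k - 1) * x j) * V j n ^ 2) := by
        intro n
        have hc : ∀ j, 0 ≤ (k - 1) * x j := fun j => mul_nonneg (by linarith) (hx j)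
        have h3 := Finset.sum_sq_le_sum_mul_sum_of_sq_le_mul univ (r := fun j => V j n)
          (f := fun j => g j * TT k lam ρ [] (x j) y)
          (g := fun j => 1 / g j * ((lam - y + (k - 1) * x j) * V j n ^ 2))
          (fun j _ => mul_nonneg (hg j).le (TT_nonneg hk hl.le (by simp) (hx j)))
          (fun j _ => mul_nonneg (one_div_nonneg.2 (hg j).le)
            (mul_nonneg (by have := hc j; linarith) (sq_nonneg _)))
          (fun j _ => by
            unfold TT
            split_ifs with h4
            · have h5 : lam - y + (k - 1) * x j ≠ 0 := by have := hc j; have := hx j; linarith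
              have h6 := (hg j).ne'
              refine le_of_eq ?_
              field_simp
            · rw [(hV j).neg (by linarith)]
              simp)
        refine h3.trans (mul_le_mul_of_nonneg_right hT' (sum_nonneg fun j _ => ?_))
        exact mul_nonneg (one_div_nonneg.2 (hg j).le)
            (mul_nonneg (by have := hc j; linarith) (sq_nonneg _))
      have h3 : SS N (∑ j, V j) ≤ κ * ∑ j, 1 / g j * WW N h k lam [] (V j) (x j) y := by
        unfold SS WW SS
        have h4 : ∑ n ∈ range N, (∑ j, V j) n ^ 2 ≤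
            ∑ n ∈ range N, κ * ∑ j, 1 / g j * ((lam - y + (k - 1) * x j) * V j n ^ 2) := by
          refine sum_le_sum fun n _ => ?_
          rw [Finset.sum_apply]
          exact h2 n
        refine h4.trans (le_of_eq ?_)
        rw [← mul_sum, sum_comm]
        congr 1
        refine sum_congr rfl fun j _ => ?_
        rw [← mul_sum, ← mul_sum]
      refine h3.trans ?_
      have h4 : 1 ≤ Real.exp (η * (ρ - y)) := Real.one_le_exp (mul_nonneg hη (by linarith))
      have h5 : 0 ≤ ∑ j, 1 / g j * WW N h k lam [] (V j) (x j) y := by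
        refine sum_nonneg fun j _ => mul_nonneg (one_div_nonneg.2 (hg j).le) ?_
        refine mul_nonneg ?_ (SS_nonneg _ _)
        have : 0 ≤ (k - 1) * x j := mul_nonneg (by linarith) (hx j)
        linarith
      have h6 : κ * 1 ≤ κ * Real.exp (η * (ρ - y)) := mul_le_mul_of_nonneg_left h4 hκ
      have h7 := mul_le_mul_of_nonneg_right h6 h5
      linarith
  | cons p ps ih =>
    intro hP hη' ι _ V x g y hg hx hV hT
    have hp := hP.head
    have hp2 : (2 : ℝ) ≤ p := by exact_mod_cast hp.1.two_le
    have hp1 : (0 : ℝ) < p - 1 := by linarith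
    have hlp := Real.log_natCast_nonneg p
    have hη'' : ∀ q ∈ ps, (q : ℝ) / (q - 1) ≤ Real.exp (η * Real.log q) := fun q hq =>
      hη' q (List.mem_cons_of_mem _ hq)
    have hper : Function.Periodic (∑ j, V j) N := by
      intro n
      rw [Finset.sum_apply, Finset.sum_apply]
      exact sum_congr rfl fun j _ => (hV j).per n
    have hprs : ∀ q ∈ ps, q.Prime := fun q hq => (hP.tail.2.2 q hq).1
    refine (JJ_step hP hper).trans ?_
    -- the first family
    have h1 := ih hP.tail hη'' (ι ⊕ ι) (Sum.elim (fun j => AA N p (V j)) (fun j => BB N h p (V j)))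
      (Sum.elim x (fun j => x j + Real.log p)) (Sum.elim g (fun j => g j / (p - 1))) y
      (by
        rintro (j | j)
        · exact hg j
        · exact div_pos (hg j) hp1)
      (by
        rintro (j | j)
        · exact hx j
        · show 0 ≤ x j + Real.log p
          have := hx j
          linarith)
      (by
        rintro (j | j)
        · exact (hV j).AA
        · show Lvl N ps (ρ - (x j + Real.log p) - y) _
          rw [show ρ - (x j + Real.log p) - y = ρ - x j - y - Real.log p by ring]
          exact (hV j).BB hP h)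
      (by
        intro y' hy1 hy2
        rw [Fintype.sum_sum_type]
        refine le_of_eq_of_le ?_ (hT y' hy1 hy2)
        simp only [Sum.elim_inl, Sum.elim_inr]
        rw [← sum_add_distrib]
        refine sum_congr rfl fun j _ => ?_
        conv_rhs => rw [TT]
        ring)
    rw [Fintype.sum_sum_type, Fintype.sum_sum_type] at h1
    simp only [Sum.elim_inl, Sum.elim_inr] at h1
    -- the second family
    have h2 := ih hP.tail hη'' ι (fun j => CC N h p (V j)) x g (y + Real.log p) hg hx
      (by
        intro j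
        show Lvl N ps (ρ - x j - (y + Real.log p)) _
        rw [show ρ - x j - (y + Real.log p) = ρ - x j - y - Real.log p by ring]
        exact (hV j).CC hP h)
      (by
        intro y' hy1 hy2
        refine (sum_le_sum fun j _ => mul_le_mul_of_nonneg_left ?_ (hg j).le).trans
          (hT y' (by linarith) hy2)
        conv_rhs => rw [TT]
        have h3 := TT_nonneg (k := k) (lam := lam) (ρ := ρ) hk hl.le hprs (x := x j + Real.log p)
          (y := y') (by have := hx j; linarith)
        have := div_nonneg h3 hp1.le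
        linarith)
    rw [← (CC_op N h p).sum] at h2
    rw [← (AA_op N p).sum, ← (BB_op N h p).sum] at h1
    set F := ∑ j, V j with hF
    -- the exponential factor
    have h3 : (p : ℝ) / (p - 1) * Real.exp (η * (ρ - (y + Real.log p))) ≤
        Real.exp (η * (ρ - y)) := by
      have h4 : Real.exp (η * (ρ - y)) =
          Real.exp (η * Real.log p) * Real.exp (η * (ρ - (y + Real.log p))) := by
        rw [← Real.exp_add]
        congr 1
        ring
      rw [h4]
      exact mul_le_mul_of_nonneg_right (hη' p List.mem_cons_self) (Real.exp_pos _).le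
    have hW0 : 0 ≤ ∑ j, 1 / g j * WW N h k lam ps (CC N h p (V j)) (x j) (y + Real.log p) := by
      refine sum_nonneg fun j _ => mul_nonneg (one_div_nonneg.2 (hg j).le) ?_
      refine WW_nonneg hk hl.le hP.tail (hx j) ?_
      rw [show ρ - x j - (y + Real.log p) = ρ - x j - y - Real.log p by ring]
      exact (hV j).CC hP h
    have h4 : p / (p - 1) * JJ N h ps (CC N h p F) ≤ κ * Real.exp (η * (ρ - y)) *
        ∑ j, 1 / g j * WW N h k lam ps (CC N h p (V j)) (x j) (y + Real.log p) := by
      refine (mul_le_mul_of_nonneg_left h2 (by positivity)).trans ?_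
      have h5 := mul_le_mul_of_nonneg_right (mul_le_mul_of_nonneg_left h3 hκ) hW0
      refine le_of_eq_of_le ?_ h5
      ring
    refine (add_le_add h1 h4).trans (le_of_eq ?_)
    rw [← mul_add, ← sum_add_distrib, ← sum_add_distrib]
    congr 1
    refine sum_congr rfl fun j _ => ?_
    conv_rhs => rw [WW]
    have hgj := (hg j).ne'
    field_simp

/-- the closed form of the weight functional -/
theorem WW_eq {N h : ℕ} {k lam : ℝ} : ∀ {ps : List ℕ}, Prs N ps → ∀ {V : ℕ → ℝ},
    Function.Periodic V N → ∀ (x y : ℝ), WW N h k lam ps V x y =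
      (lam - y + (k - 1) * x) * SS N V -
        (ps.map (fun q : ℕ => Real.log q * SS N (CC N h q V))).sum +
        (k - 1) * (ps.map (fun q : ℕ => Real.log q * ((q - 1) * SS N (BB N h q V)))).sum := by
  intro ps
  induction ps with
  | nil =>
    intro _ V _ x y
    unfold WW
    simp
  | cons p ps ih =>
    intro hP V hV x y
    have hp := hP.head
    unfold WW
    rw [ih hP.tail (AA_per hV), ih hP.tail (BB_per hp.2 hV), ih hP.tail (CC_per hp.2 hV)]
    simp only [List.map_cons, List.sum_cons]
    have h0 := (stepM hP.1 hp.1 hp.2 h hV (U := fun _ => 0) (fun _ => rfl) fun _ => le_rfl).2.1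
    have h1 : (ps.map (fun q : ℕ => Real.log q * SS N (CC N h q V))).sum =
        (ps.map (fun q : ℕ => Real.log q * SS N (CC N h q (AA N p V)))).sum +
        (p - 1) * (ps.map (fun q : ℕ => Real.log q * SS N (CC N h q (BB N h p V)))).sum +
        (ps.map (fun q : ℕ => Real.log q * SS N (CC N h q (CC N h p V)))).sum := by
      rw [← List.sum_map_mul_left, ← List.sum_map_add, ← List.sum_map_add]
      congr 1
      refine List.map_congr_left fun q hq => ?_
      have hd := hP.dvd hq
      have hc := comm_all h h hd.1 hd.2 V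
      have hc' := comm_all h h hd.2 hd.1 V
      have h2 := (stepM hP.1 hp.1 hp.2 h (CC_per (N := N) (h := h) (hP.tail.2.2 q hq).2 hV)
        (U := fun _ => 0) (fun _ => rfl) fun _ => le_rfl).2.1
      rw [h2, hc'.2.2.1, hc'.2.2.2.2.2.1, hc'.2.2.2.2.2.2.2.2]
      ring
    have h2 : (ps.map (fun q : ℕ => Real.log q * ((q - 1) * SS N (BB N h q V)))).sum =
        (ps.map (fun q : ℕ => Real.log q * ((q - 1) * SS N (BB N h q (AA N p V))))).sum +
        (p - 1) * (ps.map (fun q : ℕ => Real.log q * ((q - 1) * SS N (BB N h q (BB N h p V))))).sum +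
        (ps.map (fun q : ℕ => Real.log q * ((q - 1) * SS N (BB N h q (CC N h p V))))).sum := by
      rw [← List.sum_map_mul_left, ← List.sum_map_add, ← List.sum_map_add]
      congr 1
      refine List.map_congr_left fun q hq => ?_
      have hd := hP.dvd hq
      have hc' := comm_all h h hd.2 hd.1 V
      have h2 := (stepM hP.1 hp.1 hp.2 h (BB_per (N := N) (h := h) (hP.tail.2.2 q hq).2 hV)
        (U := fun _ => 0) (fun _ => rfl) fun _ => le_rfl).2.1
      rw [h2, hc'.2.1, hc'.2.2.2.2.1, hc'.2.2.2.2.2.2.2.1]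
      ring
    rw [h1, h2, h0]
    ring

end Pool.Agent.Y830.MO
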