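import Pool.Agent.Y830.MO.Kap
import Pool.Agent.Y830.PR.Fin

/-!
The weights of Maynard and Tao are optimal among all sums of squares: the final theorem.
-/

set_option autoImplicit false

namespace Pool.Agent.Y830.MO

open Finset Filter Topology
open Pool.Agent.Y829 Pool.Agent.Y829.RP Pool.Agent.Y830.SQ Pool.Agent.Y830.PR Pool.Agent.Y835.SB
open H343E (pi1)

theorem numer {x m θ : ℝ} (hx0 : 0 < x) (hx1 : x ≤ 1) (hm0 : 0 ≤ m) (hm1 : m ≤ 1) (hθ0 : 0 ≤ θ)
    (hθ1 : θ ≤ 1) : (1 + x) ^ 3 * ((1 + x ^ 2) * m + x) * (θ + 2 * x) ≤ m * θ + 71 * x := by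
  have h1 : (1 + x) ^ 3 ≤ 1 + 7 * x := by nlinarith [mul_nonneg hx0.le (sub_nonneg.2 hx1)]
  have h2 : (1 + x ^ 2) * m + x ≤ m + 2 * x := by nlinarith
  have h3 : 0 ≤ m * θ := mul_nonneg hm0 hθ0
  have h4 : (m + 2 * x) * (θ + 2 * x) ≤ m * θ + 8 * x := by nlinarith
  have h5 : m * θ ≤ 1 := by nlinarith
  have h6 : 0 ≤ (1 + x ^ 2) * m + x := by positivity
  calc (1 + x) ^ 3 * ((1 + x ^ 2) * m + x) * (θ + 2 * x) ≤
        (1 + 7 * x) * (m + 2 * x) * (θ + 2 * x) := by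
        refine mul_le_mul_of_nonneg_right ?_ (by positivity)
        exact mul_le_mul h1 h2 h6 (by positivity)
    _ = (1 + 7 * x) * ((m + 2 * x) * (θ + 2 * x)) := by ring
    _ ≤ (1 + 7 * x) * (m * θ + 8 * x) := mul_le_mul_of_nonneg_left h4 (by positivity)
    _ ≤ m * θ + 71 * x := by nlinarith

theorem mk_le_one {k : ℕ} (hk : 1 ≤ k) : 0 ≤ mk k ∧ mk k ≤ 1 := by
  unfold mk
  split_ifs with h1
  · exact ⟨zero_le_one, le_rfl⟩
  · have h2 : (2 : ℝ) ≤ k := by exact_mod_cast (by omega : 2 ≤ k)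
    refine ⟨div_nonneg (Real.log_natCast_nonneg k) (by linarith), ?_⟩
    rw [div_le_one (by linarith)]
    exact Real.log_le_sub_one_of_pos (by linarith)

theorem card_pf {n X : ℕ} (hn : n ≠ 0) (hnX : n ≤ X) :
    (n.primeFactors.card : ℝ) ≤ 2 * Real.log X := by
  have h1 : 2 ^ n.primeFactors.card ≤ ∏ p ∈ n.primeFactors, p := by
    rw [← prod_const]
    exact prod_le_prod (fun _ _ => by norm_num) fun p hp => (Nat.prime_of_mem_primeFactors hp).two_le
  have h2 : ∏ p ∈ n.primeFactors, p ≤ n :=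
    Nat.le_of_dvd (Nat.pos_of_ne_zero hn) (Nat.prod_primeFactors_dvd n)
  have h3 : (2 : ℝ) ^ n.primeFactors.card ≤ X := by exact_mod_cast (h1.trans h2).trans hnX
  have h4 := Real.log_le_log (by positivity) h3
  rw [Real.log_pow] at h4
  have h5 := Real.log_two_gt_d9
  have h6 : (0 : ℝ) ≤ (n.primeFactors.card : ℝ) := Nat.cast_nonneg _
  nlinarith

open Classical in
/-- the primes that are small or divide a difference -/
noncomputable def Sset (Q y : ℕ) (H : Finset ℕ) : Finset ℕ :=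
  (PQ Q).filter (fun p => p ≤ y ∨ ∃ h ∈ H, ∃ h' ∈ H, h ≠ h' ∧ h % p = h' % p)

theorem Sset_card {Q y X : ℕ} {H : Finset ℕ} (hHX : ∀ h ∈ H, h ≤ X) :
    (((Sset Q y H).filter (fun p => y < p)).card : ℝ) ≤
      (H.card : ℝ) ^ 2 * (2 * Real.log X) := by
  classical
  set T : Finset (ℕ × ℕ) := (H ×ˢ H).filter (fun q => q.1 ≠ q.2) with hT
  have h1 : (Sset Q y H).filter (fun p => y < p) ⊆
      T.biUnion (fun q => (((q.1 : ℤ) - q.2).natAbs).primeFactors) := by
    intro p hp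
    unfold Sset at hp
    rw [mem_filter, mem_filter] at hp
    obtain ⟨⟨hp1, hp2⟩, hp3⟩ := hp
    have hpp := (mem_PQ.1 hp1).1
    rcases hp2 with hp2 | ⟨h, hh, h', hh', hne, hmod⟩
    · omega
    · rw [mem_biUnion]
      refine ⟨(h, h'), ?_, ?_⟩
      · rw [hT, mem_filter, mem_product]
        exact ⟨⟨hh, hh'⟩, hne⟩
      · rw [Nat.mem_primeFactors]
        refine ⟨hpp, ?_, ?_⟩
        · have h3 : h' ≡ h [MOD p] := hmod.symm
          have h4 := (Nat.modEq_iff_dvd.1 h3)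
          exact Int.natCast_dvd.1 h4
        · show ((h : ℤ) - h').natAbs ≠ 0
          omega
  have h2 := (card_le_card h1).trans card_biUnion_le
  have h3 : (((Sset Q y H).filter (fun p => y < p)).card : ℝ) ≤
      ∑ q ∈ T, ((((q.1 : ℤ) - q.2).natAbs).primeFactors.card : ℝ) := by exact_mod_cast h2
  refine h3.trans ?_
  have h4 : ∑ q ∈ T, ((((q.1 : ℤ) - q.2).natAbs).primeFactors.card : ℝ) ≤
      ∑ _q ∈ T, 2 * Real.log X := by
    refine sum_le_sum fun q hq => ?_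
    rw [hT, mem_filter, mem_product] at hq
    have h5 := hHX _ hq.1.1
    have h6 := hHX _ hq.1.2
    have h7 := hq.2
    exact card_pf (by omega) (by omega)
  refine h4.trans ?_
  rw [sum_const, nsmul_eq_mul]
  refine mul_le_mul_of_nonneg_right ?_ (mul_nonneg (by norm_num) (Real.log_natCast_nonneg X))
  have h5 : T.card ≤ H.card * H.card := by
    rw [← card_product]
    exact card_filter_le _ _
  rw [sq]
  exact_mod_cast h5

theorem params (k B : ℕ) (x : ℝ) (hx : 0 < x) : ∃ X0 : ℕ, ∀ X : ℕ, X0 ≤ X → ∃ y : ℕ, 3 ≤ y ∧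
    (k : ℝ) ^ 2 * (2 * Real.log X) ≤ y ∧
    B * Real.log y * Real.log (Real.log X) ≤ Real.sqrt (Real.log X) ∧
    Real.log X / y ≤ x ∧ Real.exp (2 * (Real.log X / y)) ≤ 1 + x := by
  have hlogsq : ∀ᶠ L : ℝ in atTop, 3 * ((B : ℝ) + 1) * Real.log L ^ 2 ≤ Real.sqrt L := by
    have h1 := isLittleO_log_rpow_rpow_atTop (2 : ℝ) (by norm_num : (0 : ℝ) < 1 / 2)
    have h2 := (h1.bound (by positivity : 0 < 1 / (3 * ((B : ℝ) + 1)))).and
      (eventually_ge_atTop (1 : ℝ))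
    filter_upwards [h2] with L hL
    obtain ⟨h3, h4⟩ := hL
    have h5 : 0 ≤ Real.log L := Real.log_nonneg h4
    rw [Real.rpow_two, Real.norm_of_nonneg (by positivity), Real.norm_of_nonneg (by positivity),
      ← Real.sqrt_eq_rpow] at h3
    have h6 := mul_le_mul_of_nonneg_left h3 (by positivity : 0 ≤ 3 * ((B : ℝ) + 1))
    have h7 : 3 * ((B : ℝ) + 1) * (1 / (3 * ((B : ℝ) + 1)) * Real.sqrt L) = Real.sqrt L := by
      field_simp
    linarith
  obtain ⟨X1, hX1⟩ := (log_tend.eventually hlogsq).exists_forall_of_atTop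
  obtain ⟨X2, hX2⟩ := (log_tend.eventually_ge_atTop
    (max (2 * (k : ℝ) ^ 2) (max 3 (4 / x + 4)))).exists_forall_of_atTop
  refine ⟨max X1 X2, fun X hX => ?_⟩
  have hsq := hX1 X ((le_max_left _ _).trans hX)
  have hL := hX2 X ((le_max_right _ _).trans hX)
  set L := Real.log (X : ℝ) with hLd
  have hLk : 2 * (k : ℝ) ^ 2 ≤ L := (le_max_left _ _).trans hL
  have hL3 : 3 ≤ L := (le_max_left _ _).trans ((le_max_right _ _).trans hL)
  have hLx : 4 / x + 4 ≤ L := (le_max_right _ _).trans ((le_max_right _ _).trans hL)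
  obtain ⟨y, hy1, hy2⟩ : ∃ y : ℕ, L ^ 2 ≤ y ∧ (y : ℝ) ≤ L ^ 2 + 1 :=
    ⟨⌈L ^ 2⌉₊, Nat.le_ceil _, (Nat.ceil_lt_add_one (by positivity)).le⟩
  have hy9 : (9 : ℝ) ≤ y := by nlinarith
  have hy0 : (0 : ℝ) < y := by linarith
  have hlogL : 1 ≤ Real.log L := by
    rw [Real.le_log_iff_exp_le (by linarith)]
    have := Real.exp_one_lt_d9
    linarith
  have hly : Real.log y ≤ 3 * Real.log L := by
    have h1 : Real.log y ≤ Real.log (L ^ 3) := by
      refine Real.log_le_log hy0 ?_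
      nlinarith [sq_nonneg L]
    rw [Real.log_pow] at h1
    exact_mod_cast h1
  have hLy : L / y ≤ 1 / L := by
    rw [div_le_div_iff₀ hy0 (by linarith)]
    nlinarith
  have h4x : 4 / L ≤ x := by
    rw [div_le_iff₀ (by linarith)]
    have h1 : x * (4 / x + 4) ≤ x * L := mul_le_mul_of_nonneg_left hLx hx.le
    have h2 : x * (4 / x + 4) = 4 + 4 * x := by field_simp
    linarith
  have h1L : 1 / L ≤ 4 / L := div_le_div_of_nonneg_right (by norm_num) (by linarith)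
  refine ⟨y, by exact_mod_cast (by linarith : (3 : ℝ) ≤ y), ?_, ?_, by linarith, ?_⟩
  · nlinarith
  · have h1 : (B : ℝ) * Real.log y * Real.log L ≤ B * (3 * Real.log L) * Real.log L :=
      mul_le_mul_of_nonneg_right (mul_le_mul_of_nonneg_left hly (Nat.cast_nonneg _)) (by linarith)
    have h2 : (0 : ℝ) ≤ 3 * Real.log L ^ 2 := by positivity
    nlinarith
  · have h1 : |2 * (L / (y : ℝ))| ≤ 1 := by
      rw [abs_of_nonneg (by positivity)]
      have : 4 / L ≤ 4 / 3 := div_le_div_of_nonneg_left (by norm_num) (by norm_num) hL3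
      have h5 : 1 / L ≤ 1 / 3 := div_le_div_of_nonneg_left (by norm_num) (by norm_num) hL3
      linarith
    have h2 := (abs_le.1 (Real.abs_exp_sub_one_le h1)).2
    rw [abs_of_nonneg (by positivity)] at h2
    have h3 : 4 * (L / y) ≤ 4 / L := by
      have : 4 / L = 4 * (1 / L) := by ring
      rw [this]
      linarith
    linarith

/-- the inequality for the main terms -/
theorem modelM (k : ℕ) (hk : 1 ≤ k) (ε : ℝ) (hε : 0 < ε) : ∃ X0 : ℕ,
    ∀ X : ℕ, X0 ≤ X → ∀ (Q R : ℕ) (H : Finset ℕ) (c : ℕ → ℕ → ℝ) (J : ℕ) (g : ℕ → ℕ → ℕ → ℝ),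
      1 ≤ R → R ≤ X → H.card ≤ k → (∀ h ∈ H, h ≤ X) →
      (∀ n, wt Q c n = ∑ j ∈ range J, wt R (g j) n ^ 2) →
      0 ≤ mu Q c ∧
      ∑ h ∈ H, GG Q c h ≤ (k * mk k * Real.log R + ε * Real.log X) * mu Q c := by
  classical
  have hkr : (1 : ℝ) ≤ k := by exact_mod_cast hk
  obtain ⟨x, hx⟩ : ∃ x : ℝ, x = min (1 / 4) (ε / (71 * k)) := ⟨_, rfl⟩
  have hx0 : 0 < x := by rw [hx]; exact lt_min (by norm_num) (by positivity)
  have hx1 : x ≤ 1 / 4 := by rw [hx]; exact min_le_left _ _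
  have hxε : 71 * k * x ≤ ε := by
    have h1 : x ≤ ε / (71 * k) := by rw [hx]; exact min_le_right _ _
    rw [le_div_iff₀ (by positivity)] at h1
    linarith
  obtain ⟨B0, X0, hcls⟩ := clsM (x ^ 2) x (by positivity) hx0 hk
  obtain ⟨X2, hpar⟩ := params k B0 x hx0
  obtain ⟨X4, hX4⟩ := (log_tend.eventually_ge_atTop 1).exists_forall_of_atTop
  refine ⟨max X0 (max X2 X4), ?_⟩
  intro X hX Q R H c J g hR1 hRX hHk hHX hsos
  have hX0' : X0 ≤ X := (le_max_left _ _).trans hX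
  have hX2' : X2 ≤ X := (le_max_left _ _).trans ((le_max_right _ _).trans hX)
  have hX4' : X4 ≤ X := (le_max_right _ _).trans ((le_max_right _ _).trans hX)
  have hL1 := hX4 X hX4'
  obtain ⟨y, hy3, hyk, hyB, hyx, hyE⟩ := hpar X hX2'
  set L := Real.log (X : ℝ) with hLd
  have hL0 : 0 < L := by linarith
  have hRr : (1 : ℝ) ≤ R := by exact_mod_cast hR1
  have hρ0 : 0 ≤ Real.log R := Real.log_nonneg hRr
  have hρL : Real.log R ≤ L := Real.log_le_log (by linarith) (by exact_mod_cast hRX)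
  set w : ℕ → ℝ := wt Q c with hw
  have hw0 : ∀ n, 0 ≤ w n := fun n => by rw [hsos n]; exact sum_nonneg fun _ _ => sq_nonneg _
  -- the set of primes
  set S := Sset Q y H with hSd
  have hS : ∀ p ∈ S, p.Prime ∧ p ≤ Q := fun p hp => by
    rw [hSd] at hp
    unfold Sset at hp
    exact mem_PQ.1 (mem_filter.1 hp).1
  have hyS : ∀ p : ℕ, p.Prime → p ≤ Q → p ≤ y → p ∈ S := by
    intro p hp hpQ hpy
    rw [hSd]
    unfold Sset
    exact mem_filter.2 ⟨mem_PQ.2 ⟨hp, hpQ⟩, Or.inl hpy⟩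
  have hSc : (S.filter (fun p => y < p)).card ≤ y := by
    have h1 := Sset_card (Q := Q) (y := y) hHX
    rw [← hLd] at h1
    have h2 : (H.card : ℝ) ^ 2 * (2 * L) ≤ (k : ℝ) ^ 2 * (2 * L) := by
      refine mul_le_mul_of_nonneg_right ?_ (by linarith)
      exact pow_le_pow_left₀ (Nat.cast_nonneg _) (by exact_mod_cast hHk) 2
    exact_mod_cast (h1.trans h2).trans hyk
  have hH : ∀ p : ℕ, p.Prime → p ≤ Q → p ∉ S → Set.InjOn (fun h => h % p) (H : Set ℕ) := by
    intro p hp hpQ hpS h hh h' hh' hmod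
    by_contra hne
    refine hpS ?_
    rw [hSd]
    unfold Sset
    exact mem_filter.2 ⟨mem_PQ.2 ⟨hp, hpQ⟩, Or.inr ⟨h, hh, h', hh', hne, hmod⟩⟩
  -- the period
  set W := ∏ p ∈ S, p with hW
  have hW0 : 0 < W := prod_pos fun p hp => (hS p hp).1.pos
  obtain ⟨N, hNd⟩ : ∃ N : ℕ, N = W * (max Q R).factorial := ⟨_, rfl⟩
  have hN0 : 0 < N := by rw [hNd]; exact Nat.mul_pos hW0 (Nat.factorial_pos _)
  have hNr : (0 : ℝ) < N := by exact_mod_cast hN0
  have hdN : ∀ d ∈ Icc 1 Q, W * d ∣ N := by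
    intro d hd
    rw [mem_Icc] at hd
    rw [hNd]
    exact Nat.mul_dvd_mul_left W (Nat.dvd_factorial (by omega) (hd.2.trans (le_max_left _ _)))
  have hdN' : ∀ d ∈ Icc 1 Q, d ∣ N := fun d hd => (Dvd.intro_left W rfl).trans (hdN d hd)
  have hdR : ∀ d ∈ Icc 1 R, W * d ∣ N := by
    intro d hd
    rw [mem_Icc] at hd
    rw [hNd]
    exact Nat.mul_dvd_mul_left W (Nat.dvd_factorial (by omega) (hd.2.trans (le_max_right _ _)))
  set D := DD 1 (PQ Q \ S) with hD
  set vS := V S with hvS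
  set v := V (PQ Q) with hv
  have hPQS : PQ Q \ S ∪ S = PQ Q := by
    rw [sdiff_union_self_eq_union, union_eq_left]
    intro p hp
    exact mem_PQ.2 (hS p hp)
  have hvv : v = vS * D := by
    rw [hv, hvS, hD, ← V_eq_DD]
    unfold V
    rw [← hPQS, prod_union disjoint_sdiff_self_left, hPQS, mul_comm]
  have hVpos : ∀ P : Finset ℕ, (∀ p ∈ P, p.Prime) → 0 < V P := fun P hP =>
    prod_pos fun p hp => fac_pos (hP p hp)
  have hvS0 : 0 < vS := hVpos S fun p hp => (hS p hp).1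
  have hD0 : 0 < D := by
    rw [hD, ← V_eq_DD]
    exact hVpos _ fun p hp => (mem_PQ.1 (Finset.mem_sdiff.1 hp).1).1
  set Gs : ℝ := ∑ h ∈ H, GG Q c h with hGs
  obtain ⟨E, hE⟩ : ∃ E : ℝ, E = Real.exp (2 * (Real.log R / y)) := ⟨_, rfl⟩
  have hy0 : (0 : ℝ) < y := by exact_mod_cast (by omega : 0 < y)
  have hEx : E ≤ 1 + x := by
    rw [hE]
    refine le_trans (Real.exp_le_exp.2 ?_) hyE
    have := div_le_div_of_nonneg_right hρL hy0.le
    linarith
  have hE0 : 0 < E := by rw [hE]; exact Real.exp_pos _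
  set m := mk k with hm
  obtain ⟨hm0, hm1⟩ := mk_le_one hk
  rw [← hm] at hm0 hm1
  have hxx : x ^ 2 / x = x := by field_simp
  have hb0 : 1 / D * ∑ n ∈ range N, w n * (SV H (PQ Q) n).card ≤
      E * (vS * ((1 + x ^ 2) * m + x)) * (k * (Real.log R + x * L + 1 / y * Real.log R)) *
        ∑ n ∈ range N, w n := by
    have h1 : ∀ G : ℕ → ℝ, ∑ n ∈ range N, w n * G n =
        ∑ j ∈ range J, ∑ n ∈ range N, wt R (g j) n ^ 2 * G n := by
      intro G
      rw [sum_comm]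
      refine sum_congr rfl fun n _ => ?_
      rw [hsos n, sum_mul]
    have h2 : ∑ n ∈ range N, w n = ∑ j ∈ range J, ∑ n ∈ range N, wt R (g j) n ^ 2 := by
      rw [sum_comm]
      exact sum_congr rfl fun n _ => hsos n
    rw [h1, h2, mul_sum, mul_sum]
    refine sum_le_sum fun j _ => ?_
    have h3 := hcls X hX0' Q y R S H N (wt R (g j)) hy3 hS hyS hSc hH hyB hHk hR1 hN0 hdN
      (wt_isWeight W N R (g j) hdR)
    rw [← hE, hxx] at h3
    exact h3
  have hb1 : ∑ n ∈ range N, w n * (SV H (PQ Q) n).card = N * v * Gs := by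
    have h1 : ∑ n ∈ range N, w n * ((SV H (PQ Q) n).card : ℝ) =
        ∑ h ∈ H, ∑ n ∈ range N, wt Q c n * (if ∀ p ∈ PQ Q, ¬ p ∣ n + h then 1 else 0) := by
      rw [sum_comm]
      refine sum_congr rfl fun n _ => ?_
      rw [SV_card, mul_sum]
    rw [h1, hGs, mul_sum]
    exact sum_congr rfl fun h _ => sum_wt_free Q N h c hN0 hdN'
  have hb2 : ∑ n ∈ range N, w n = N * mu Q c := sum_wt Q N c hdN'
  have hmu0 : 0 ≤ mu Q c := by
    have h1 : 0 ≤ ∑ n ∈ range N, w n := sum_nonneg fun n _ => hw0 n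
    rw [hb2] at h1
    by_contra h2
    rw [not_le] at h2
    have := mul_neg_of_pos_of_neg hNr h2
    linarith
  refine ⟨hmu0, ?_⟩
  obtain ⟨θ, hθ⟩ : ∃ θ : ℝ, θ = Real.log R / L := ⟨_, rfl⟩
  have hθ0 : 0 ≤ θ := by rw [hθ]; positivity
  have hθ1 : θ ≤ 1 := by rw [hθ, div_le_one hL0]; exact hρL
  have hθL : θ * L = Real.log R := by rw [hθ]; field_simp
  have h1 : Gs = 1 / (N * vS) * (1 / D * ∑ n ∈ range N, w n * (SV H (PQ Q) n).card) := by
    rw [hb1, hvv]
    have := hD0.ne'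
    have := hvS0.ne'
    field_simp
  have h2 : 0 < 1 / (N * vS) := by positivity
  have h3 : Gs ≤ mu Q c * (E * ((1 + x ^ 2) * m + x) *
      (k * (Real.log R + x * L + 1 / y * Real.log R))) := by
    rw [h1]
    refine (mul_le_mul_of_nonneg_left hb0 h2.le).trans (le_of_eq ?_)
    rw [hb2]
    have := hvS0.ne'
    field_simp
  have h4 : Real.log R + x * L + 1 / y * Real.log R ≤ (θ + 2 * x) * L := by
    have h6 : 1 / y * Real.log R ≤ 1 / y * L := mul_le_mul_of_nonneg_left hρL (by positivity)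
    have h7 : 1 / y * L = L / y := by ring
    have h8 : x * 1 ≤ x * L := mul_le_mul_of_nonneg_left hL1 hx0.le
    linarith
  have h5 : 0 ≤ (1 + x ^ 2) * m + x := by positivity
  have h6 : E * ((1 + x ^ 2) * m + x) * (k * (Real.log R + x * L + 1 / y * Real.log R)) ≤
      k * (m * θ + 71 * x) * L := by
    have h7 : E * ((1 + x ^ 2) * m + x) * (k * (Real.log R + x * L + 1 / y * Real.log R)) ≤
        (1 + x) ^ 3 * ((1 + x ^ 2) * m + x) * (k * ((θ + 2 * x) * L)) := by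
      have h8 : E ≤ (1 + x) ^ 3 := by
        refine hEx.trans ?_
        nlinarith [sq_nonneg x, mul_nonneg hx0.le (sq_nonneg x)]
      refine mul_le_mul (mul_le_mul_of_nonneg_right h8 h5)
        (mul_le_mul_of_nonneg_left h4 (by linarith)) (by positivity) (by positivity)
    refine h7.trans ?_
    have h8 := mul_le_mul_of_nonneg_right (numer hx0 (by linarith) hm0 hm1 hθ0 hθ1)
      (by positivity : 0 ≤ k * L)
    linarith
  have h7 := mul_le_mul_of_nonneg_left h6 hmu0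
  have h8 : k * (m * θ + 71 * x) * L ≤ k * m * Real.log R + ε * L := by
    rw [← hθL]
    have := mul_le_mul_of_nonneg_right hxε hL0.le
    linarith
  have h9 := mul_le_mul_of_nonneg_right h8 hmu0
  linarith

theorem mainM (k : ℕ) (hk : 1 ≤ k) (ε : ℝ) (hε : 0 < ε) (K : ℕ) : ∃ B X0 : ℕ,
    ∀ X : ℕ, X0 ≤ X → ∀ (Q R : ℕ) (H : Finset ℕ) (c : ℕ → ℕ → ℝ) (J : ℕ) (g : ℕ → ℕ → ℕ → ℝ),
      1 ≤ Q → 1 ≤ R → R ≤ X → (Q : ℝ) ^ 2 * Real.log X ^ B ≤ X → H.card ≤ k →
      (∀ h ∈ H, h ≤ X) →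
      (∀ n, wt Q c n = ∑ j ∈ range J, wt R (g j) n ^ 2) →
      ∑ d ∈ Icc 1 Q, ss c d ^ 2 / d ≤ Real.log X ^ K →
      X / Real.log X ^ K ≤ ∑ n ∈ Ioc X (2 * X), wt Q c n →
      ∑ n ∈ Ioc X (2 * X), wt Q c n * prs H n ≤
        (k * mk k * (Real.log R / Real.log X) + ε) * ∑ n ∈ Ioc X (2 * X), wt Q c n := by
  classical
  have hkr : (1 : ℝ) ≤ k := by exact_mod_cast hk
  obtain ⟨ε1, hε1⟩ : ∃ ε1 : ℝ, ε1 = min 1 ε / 8 := ⟨_, rfl⟩
  have hε10 : 0 < ε1 := by rw [hε1]; have := lt_min one_pos hε; positivity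
  have hε11 : ε1 ≤ 1 / 8 := by rw [hε1]; have : min 1 ε ≤ 1 := min_le_left _ _; linarith
  have hε12 : 8 * ε1 ≤ ε := by rw [hε1]; have : min 1 ε ≤ ε := min_le_right _ _; linarith
  obtain ⟨x, hx⟩ : ∃ x : ℝ, x = ε1 / k := ⟨_, rfl⟩
  have hxk : k * x = ε1 := by rw [hx]; field_simp
  have hx0 : 0 < x := by rw [hx]; positivity
  have hxε : x ≤ ε1 := by rw [← hxk]; exact le_mul_of_one_le_left hx0.le hkr
  obtain ⟨X0, hmod⟩ := modelM k hk ε1 hε10
  obtain ⟨B1, X1, hsh⟩ := shift_pr K (K + 2)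
  obtain ⟨X3, hdy⟩ := dyadic x hx0 (by linarith)
  obtain ⟨X4, hX4⟩ := (log_tend.eventually_ge_atTop (max k (2 / x + 2))).exists_forall_of_atTop
  refine ⟨B1 + 2 * K + 2, max (max X0 X1) (max X3 (max X4 3)), ?_⟩
  intro X hX Q R H c J g hQ1 hR1 hRX hQX hHk hHX hsos hc hmass
  have hXa := (le_max_left _ _).trans hX
  have hXb := (le_max_right _ _).trans hX
  have hX0' : X0 ≤ X := (le_max_left _ _).trans hXa
  have hX1' : X1 ≤ X := (le_max_right _ _).trans hXa
  have hX3' : X3 ≤ X := (le_max_left _ _).trans hXb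
  have hX4' : X4 ≤ X := (le_max_left _ _).trans ((le_max_right _ _).trans hXb)
  have hX3'' : 3 ≤ X := (le_max_right _ _).trans ((le_max_right _ _).trans hXb)
  have hLm := hX4 X hX4'
  obtain ⟨hmu0, hmodel⟩ := hmod X hX0' Q R H c J g hR1 hRX hHk hHX hsos
  set L := Real.log (X : ℝ) with hLd
  have hLk : (k : ℝ) ≤ L := (le_max_left _ _).trans hLm
  have hLx : 2 / x + 2 ≤ L := (le_max_right _ _).trans hLm
  have hL2 : 2 ≤ L := by
    have : 0 ≤ 2 / x := by positivity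
    linarith
  have hL1 : 1 ≤ L := by linarith
  have hL0 : 0 < L := by linarith
  have h2L : 2 / L ≤ x := by
    rw [div_le_iff₀ hL0]
    have h1 : x * (2 / x + 2) ≤ x * L := mul_le_mul_of_nonneg_left hLx hx0.le
    have h2 : x * (2 / x + 2) = 2 + 2 * x := by field_simp
    linarith
  have hXr : (0 : ℝ) < X := by exact_mod_cast (by omega : 0 < X)
  have hQr : (1 : ℝ) ≤ Q := by exact_mod_cast hQ1
  have hRr : (1 : ℝ) ≤ R := by exact_mod_cast hR1
  have hρ0 : 0 ≤ Real.log R := Real.log_nonneg hRr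
  have hρL : Real.log R ≤ L := Real.log_le_log (by linarith) (by exact_mod_cast hRX)
  set w : ℕ → ℝ := wt Q c with hw
  have hw0 : ∀ n, 0 ≤ w n := fun n => by rw [hsos n]; exact sum_nonneg fun _ _ => sq_nonneg _
  have hQB : ∀ b : ℕ, b ≤ B1 + 2 * K + 2 → (Q : ℝ) ^ 2 * L ^ b ≤ X := fun b hb =>
    le_trans (mul_le_mul_of_nonneg_left (pow_le_pow_right₀ hL1 hb) (by positivity)) hQX
  -- the sums
  set A : ℝ := ∑ n ∈ Ioc X (2 * X), w n with hA
  set T : ℝ := ∑ n ∈ Ioc X (2 * X), w n * prs H n with hT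
  set Gs : ℝ := ∑ h ∈ H, GG Q c h with hGs
  set e : ℝ := X / L ^ (K + 1) with he
  have he0 : 0 < e := by positivity
  have heA : e ≤ A / L := by
    have h1 : e = X / L ^ K / L := by rw [he, pow_succ]; field_simp
    rw [h1]
    exact div_le_div_of_nonneg_right hmass hL0.le
  have hA0 : 0 < A := lt_of_lt_of_le (by positivity) hmass
  have hGG : ∀ h, 0 ≤ GG Q c h := fun h => GG_nonneg Q h c hw0
  have hGs0 : 0 ≤ Gs := sum_nonneg fun h _ => hGG h
  have hHkr : (H.card : ℝ) ≤ k := by exact_mod_cast hHk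
  have hcard : (H.card : ℝ) * (X / L ^ (K + 2)) ≤ e := by
    have h1 : (H.card : ℝ) * (X / L ^ (K + 2)) ≤ L * (X / L ^ (K + 2)) :=
      mul_le_mul_of_nonneg_right (hHkr.trans hLk) (by positivity)
    refine h1.trans (le_of_eq ?_)
    rw [he, show K + 2 = 1 + (K + 1) by ring, pow_add, pow_one]
    field_simp
  -- (a) primes
  have ha : T ≤ (1 + x) * (X / L * Gs) + 2 * e := by
    have h1 : T = ∑ h ∈ H, ∑ n ∈ Ioc X (2 * X), w n * (if (n + h).Prime then 1 else 0) := by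
      rw [hT, sum_comm]
      refine sum_congr rfl fun n _ => ?_
      rw [prs_eq, mul_sum]
    have h2 : |T - ∑ h ∈ H, (pi1 (2 * X + h) - pi1 (X + h)) * GG Q c h| ≤ 2 * e := by
      rw [h1, ← sum_sub_distrib]
      refine (abs_sum_le_sum_abs _ _).trans ((sum_le_sum fun h hh =>
        hsh X hX1' Q hQ1 (hQB B1 (by omega)) c hc h (hHX h hh)).trans ?_)
      rw [sum_const, nsmul_eq_mul]
      linarith
    have h3 : ∑ h ∈ H, (pi1 (2 * X + h) - pi1 (X + h)) * GG Q c h ≤ (1 + x) * (X / L * Gs) := by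
      rw [hGs, mul_sum, mul_sum]
      refine sum_le_sum fun h hh => ?_
      have h4 := (hdy X hX3' h (hHX h hh)).2
      have := mul_le_mul_of_nonneg_right h4 (hGG h)
      linarith
    have h4 := (abs_le.1 h2).2
    linarith
  have hmu : X * mu Q c ≤ (1 + x) * A := by
    have h1 := (abs_le.1 (sum_dy Q X c)).1
    have h2 := sum_ss (K := K) (L := L) hL1 hc
    have h3 : (Q : ℝ) * L ^ K ≤ e := by
      rw [he, le_div_iff₀ (by positivity)]
      calc (Q : ℝ) * L ^ K * L ^ (K + 1) = Q * L ^ (2 * K + 1) := by ring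
        _ ≤ (Q : ℝ) ^ 2 * L ^ (2 * K + 1) := by
            refine mul_le_mul_of_nonneg_right ?_ (by positivity)
            nlinarith
        _ ≤ X := hQB (2 * K + 1) (by omega)
    have h5 : ∑ n ∈ Ioc X (2 * X), wt Q c n = A := rfl
    rw [h5] at h1
    have h6 : A / L ≤ x * A := by
      have h7 : 1 / L ≤ 2 / L := div_le_div_of_nonneg_right (by norm_num) hL0.le
      have h8 := mul_le_mul_of_nonneg_right (h7.trans h2L) hA0.le
      have h9 : 1 / L * A = A / L := by ring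
      linarith
    linarith
  set m := mk k with hm
  obtain ⟨hm0, hm1⟩ := mk_le_one hk
  rw [← hm] at hm0 hm1
  obtain ⟨θ, hθ⟩ : ∃ θ : ℝ, θ = Real.log R / L := ⟨_, rfl⟩
  have hθ0 : 0 ≤ θ := by rw [hθ]; positivity
  have hθ1 : θ ≤ 1 := by rw [hθ, div_le_one hL0]; exact hρL
  have hθL : θ * L = Real.log R := by rw [hθ]; field_simp
  obtain ⟨M, hM⟩ : ∃ M : ℝ, M = k * m * θ + ε1 := ⟨_, rfl⟩
  have hM0 : 0 ≤ M := by rw [hM]; positivity
  have hMk : M ≤ k + 1 := by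
    have h1 : k * m * θ ≤ k * 1 * 1 :=
      mul_le_mul (mul_le_mul_of_nonneg_left hm1 (by linarith)) hθ1 hθ0 (by linarith)
    rw [hM]
    linarith
  have hb : X / L * Gs ≤ M * ((1 + x) * A) := by
    have h1 : X / L * Gs ≤ X / L * ((k * m * Real.log R + ε1 * L) * mu Q c) :=
      mul_le_mul_of_nonneg_left hmodel (by positivity)
    have h2 : X / L * ((k * m * Real.log R + ε1 * L) * mu Q c) = M * (X * mu Q c) := by
      rw [hM, ← hθL]
      field_simp
    rw [h2] at h1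
    exact h1.trans (mul_le_mul_of_nonneg_left hmu hM0)
  -- conclusion
  have h1 : (1 + x) * (X / L * Gs) ≤ (M + 6 * ε1) * A := by
    have h2 := mul_le_mul_of_nonneg_left hb (by linarith : 0 ≤ 1 + x)
    refine h2.trans ?_
    have h3 : (1 + x) * (M * ((1 + x) * A)) = (1 + x) ^ 2 * M * A := by ring
    rw [h3]
    refine mul_le_mul_of_nonneg_right ?_ hA0.le
    have h4 : (1 + x) ^ 2 ≤ 1 + 3 * x := by nlinarith
    have h5 := mul_le_mul_of_nonneg_right h4 hM0
    have h6 : 3 * x * M ≤ 3 * x * (k + 1) := mul_le_mul_of_nonneg_left hMk (by positivity)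
    nlinarith
  have h2 : 2 * e ≤ x * A := by
    have h8 := mul_le_mul_of_nonneg_right h2L hA0.le
    have h9 : 2 / L * A = 2 * (A / L) := by ring
    linarith
  have h3 : x * A ≤ ε1 * A := mul_le_mul_of_nonneg_right hxε hA0.le
  have h4 : (8 * ε1) * A ≤ ε * A := mul_le_mul_of_nonneg_right hε12 hA0.le
  rw [← hθ]
  have h5 : (M + 6 * ε1) * A = k * m * θ * A + 7 * ε1 * A := by rw [hM]; ring
  linarith

end Pool.Agent.Y830.MO
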