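import Pool.Agent.Y830.MO.Rough

/-!
The dual functional is small; the sum over the residue classes.
-/

set_option autoImplicit false

namespace Pool.Agent.Y830.MO

open Finset Filter Topology
open Pool.Agent.Y829 Pool.Agent.Y829.RP Pool.Agent.Y830.SQ Pool.Agent.Y830.PR Pool.Agent.Y835.SB

theorem TTbd (ε ε' : ℝ) (hε : 0 < ε) (hε' : 0 < ε') {k : ℕ} (hk : 1 ≤ k) : ∃ B X0 : ℕ,
    ∀ X : ℕ, X0 ≤ X → ∀ (y : ℕ) (S P : Finset ℕ), 3 ≤ y → (∀ p ∈ S, p.Prime) →
    (S.filter (fun p => y < p)).card ≤ y → (∀ p ∈ P, p.Prime) → Disjoint P S →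
    B * Real.log y * Real.log (Real.log X) ≤ Real.sqrt (Real.log X) → ∀ η ρ : ℝ, 0 ≤ η →
    (∀ p ∈ P, (p : ℝ) / (p - 1) ≤ Real.exp (η * Real.log p)) → 0 ≤ ρ →
    ∀ z : ℝ, 0 ≤ z → z ≤ ρ → TT k (ρ + ε' * Real.log X) ρ P.toList 0 z ≤
      Real.exp (η * ρ) * (V S * ((1 + ε) * mk k + ε / ε')) := by
  obtain ⟨B, X1, hr⟩ := rough_sum ε hε
  obtain ⟨X2, hX2⟩ := (log_tend.eventually_ge_atTop 1).exists_forall_of_atTop
  refine ⟨B, max X1 X2, fun X hX y S P hy hS hSc hP hPS hB η ρ hη hη' hρ z hz hzρ => ?_⟩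
  have hr' := hr X ((le_max_left _ _).trans hX) y S hy hS hSc hB
  have hL1 := hX2 X ((le_max_right _ _).trans hX)
  set L := Real.log (X : ℝ) with hL
  have hεL : 0 < ε' * L := by positivity
  have hkr : (1 : ℝ) ≤ k := by exact_mod_cast hk
  have h1 := TT_int (k := (k : ℝ)) (lam := ρ + ε' * L) (ρ := ρ) (η := η) (P := P) (S := S) hkr
    (by linarith) hη hP hS hPS hη' hz hzρ
  refine h1.trans (mul_le_mul_of_nonneg_left ?_ (Real.exp_pos _).le)
  have hVS0 : 0 ≤ V S := by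
    unfold V
    refine prod_nonneg fun p hp => ?_
    have hp2 : (2 : ℝ) ≤ p := by exact_mod_cast (hS p hp).two_le
    rw [sub_nonneg, div_le_one (by linarith)]
    linarith
  obtain ⟨b, hb⟩ : ∃ b : ℝ, b = ρ + ε' * L - z := ⟨_, rfl⟩
  rw [← hb]
  have h2 := kernel (D := (Icc 1 ⌊Real.exp (ρ - z)⌋₊).filter (fun d => ∀ p ∈ S, ¬ p ∣ d))
    (a := fun d : ℕ => 1 / (d : ℝ)) (l := fun d : ℕ => Real.log d) (b := b) (r := ρ - z)
    (α := V S * (1 + ε)) (β := V S * (ε * L)) (k := k) hk (by linarith) (by linarith)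
    (by linarith) (by positivity)
    (by
      intro d hd
      rw [mem_filter, mem_Icc] at hd
      refine ⟨Real.log_natCast_nonneg d, ?_⟩
      have hd0 : (0 : ℝ) < d := by exact_mod_cast hd.1.1
      rw [Real.log_le_iff_le_exp hd0]
      exact (Nat.le_floor_iff (Real.exp_pos _).le).1 hd.1.2)
    (fun d _ => by positivity)
    (by
      intro s hs hsr
      refine le_trans (sum_le_sum_of_subset_of_nonneg (t := (Icc 1 ⌊Real.exp s⌋₊).filter
        (fun d => ∀ p ∈ S, ¬ p ∣ d)) ?_ fun d _ _ => by positivity) ?_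
      · intro d hd
        rw [mem_filter, mem_filter, mem_Icc] at hd
        rw [mem_filter, mem_Icc]
        refine ⟨⟨hd.1.1.1, ?_⟩, hd.1.2⟩
        have hd0 : (0 : ℝ) < d := by exact_mod_cast hd.1.1.1
        exact Nat.le_floor ((Real.log_le_iff_le_exp hd0).1 hd.2)
      · refine (hr' s hs).trans (le_of_eq ?_)
        ring)
  refine h2.trans ?_
  have h3 : V S * (ε * L) / b ≤ V S * (ε / ε') := by
    have h4 : V S * (ε * L) / b ≤ V S * (ε * L) / (ε' * L) :=
      div_le_div_of_nonneg_left (by positivity) hεL (by linarith)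
    refine h4.trans (le_of_eq ?_)
    field_simp
  have h4 : V S * ((1 + ε) * mk k + ε / ε') = V S * (1 + ε) * mk k + V S * (ε / ε') := by ring
  rw [h4]
  linarith

theorem JJ_Bin {P : Finset ℕ} (hP : ∀ p ∈ P, p.Prime) (N : ℕ) (H : Finset ℕ) (V : ℕ → ℝ) :
    ∑ s ∈ H, JJ N s P.toList V = 1 / DD 1 P * Bin N H 1 V P := by
  classical
  have h1 : (P.toList.map (fun p : ℕ => (p : ℝ) / (p - 1))).prod = 1 / DD 1 P := by
    rw [Finset.prod_map_toList]
    unfold DD
    rw [one_div, ← prod_inv_distrib]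
    refine prod_congr rfl fun p hp => ?_
    have hp2 : (2 : ℝ) ≤ p := by exact_mod_cast (hP p hp).two_le
    have h2 : (p : ℝ) ≠ 0 := by linarith
    have h3 : (p : ℝ) - 1 ≠ 0 := by linarith
    rw [Nat.cast_one, one_sub_div h2, inv_div]
  unfold JJ
  rw [h1, ← mul_sum, sum_comm]
  congr 1
  unfold Bin
  refine sum_congr rfl fun n _ => ?_
  rw [← mul_sum, Nat.choose_one_right]
  congr 1
  unfold Ud SV
  rw [← sum_boole]
  refine sum_congr rfl fun s _ => ?_
  refine if_congr ?_ rfl rfl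
  exact ⟨fun h q hq => h q (Finset.mem_toList.2 hq), fun h q hq => h q (Finset.mem_toList.1 hq)⟩

/-- the sum over the residue classes modulo the product of `S` -/
theorem clsM (ε ε' : ℝ) (hε : 0 < ε) (hε' : 0 < ε') {k : ℕ} (hk : 1 ≤ k) : ∃ B X0 : ℕ,
    ∀ X : ℕ, X0 ≤ X → ∀ (Q y R : ℕ) (S H : Finset ℕ) (N : ℕ) (F : ℕ → ℝ), 3 ≤ y →
      (∀ p ∈ S, p.Prime ∧ p ≤ Q) → (∀ p : ℕ, p.Prime → p ≤ Q → p ≤ y → p ∈ S) →
      (S.filter (fun p => y < p)).card ≤ y →
      (∀ p : ℕ, p.Prime → p ≤ Q → p ∉ S → Set.InjOn (fun h => h % p) (H : Set ℕ)) →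
      B * Real.log y * Real.log (Real.log X) ≤ Real.sqrt (Real.log X) → H.card ≤ k →
      1 ≤ R → 0 < N → (∀ d ∈ Icc 1 Q, (∏ p ∈ S, p) * d ∣ N) → IsWeight (∏ p ∈ S, p) N R F →
      1 / DD 1 (PQ Q \ S) * ∑ n ∈ range N, F n ^ 2 * (SV H (PQ Q) n).card ≤
        Real.exp (2 * (Real.log R / y)) * (V S * ((1 + ε) * mk k + ε / ε')) *
          (k * (Real.log R + ε' * Real.log X + 1 / y * Real.log R)) *
          ∑ n ∈ range N, F n ^ 2 := by
  classical
  obtain ⟨B, X1, hTT⟩ := TTbd ε ε' hε hε' hk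
  obtain ⟨X2, hX2⟩ := (log_tend.eventually_ge_atTop 1).exists_forall_of_atTop
  refine ⟨B, max X1 X2, fun X hX Q y R S H N F hy hS hyS hSc hH hB hHk hR hN hdN hF => ?_⟩
  have hL1 := hX2 X ((le_max_right _ _).trans hX)
  have hX1 : X1 ≤ X := (le_max_left _ _).trans hX
  set P := PQ Q \ S with hP
  set W := ∏ p ∈ S, p with hWd
  have hW0 : 0 < W := prod_pos fun p hp => (hS p hp).1.pos
  have hSW : ∀ p ∈ S, p ∣ W := fun p hp => dvd_prod_of_mem _ hp
  have hSP : S ∪ P = PQ Q := by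
    rw [hP]
    refine union_sdiff_of_subset fun p hp => ?_
    exact mem_PQ.2 (hS p hp)
  have hPp : ∀ p ∈ P, p.Prime ∧ p ≤ Q ∧ p ∉ S := fun p hp => by
    rw [hP, Finset.mem_sdiff] at hp
    exact ⟨(mem_PQ.1 hp.1).1, (mem_PQ.1 hp.1).2, hp.2⟩
  have hPy : ∀ p ∈ P, y < p := fun p hp => by
    by_contra h1
    exact (hPp p hp).2.2 (hyS p (hPp p hp).1 (hPp p hp).2.1 (by omega))
  have hok : ∀ H' ⊆ H, Ok H' P W N := by
    intro H' hH'
    refine ⟨hN, fun p hp => ?_⟩
    obtain ⟨h1, h2, h3⟩ := hPp p hp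
    refine ⟨h1, ?_, ?_, ?_⟩
    · exact (Dvd.intro_left _ rfl).trans (hdN p (mem_Icc.2 ⟨h1.one_lt.le, h2⟩))
    · intro h4
      rw [hWd, h1.prime.dvd_finsetProd_iff] at h4
      obtain ⟨q, hq, hpq⟩ := h4
      rw [(Nat.prime_dvd_prime_iff_eq h1 (hS q hq).1).1 hpq] at h3
      exact h3 hq
    · exact (hH p h1 h2 h3).mono (by exact_mod_cast hH')
  have hy0 : (0 : ℝ) < y := by exact_mod_cast (by omega : 0 < y)
  have hη' : ∀ p ∈ P, (p : ℝ) / (p - 1) ≤ 1 + 1 / y := by
    intro p hp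
    have h1 : (y : ℝ) + 1 ≤ p := by exact_mod_cast hPy p hp
    have h2 : (p : ℝ) / (p - 1) = 1 + 1 / (p - 1) := by
      have : (p : ℝ) - 1 ≠ 0 := by linarith
      field_simp
      ring
    rw [h2]
    have h3 : 1 / ((p : ℝ) - 1) ≤ 1 / y := one_div_le_one_div_of_le hy0 (by linarith)
    linarith
  have hη : ∀ p ∈ P, (p : ℝ) / (p - 1) ≤ Real.exp (1 / y * Real.log p) := by
    intro p hp
    refine (hη' p hp).trans ?_
    have h1 : 1 ≤ Real.log p := one_le_log (by have := hPy p hp; omega)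
    have h2 : 1 / (y : ℝ) ≤ 1 / y * Real.log p := le_mul_of_one_le_right (by positivity) h1
    have h3 := Real.add_one_le_exp (1 / (y : ℝ) * Real.log p)
    linarith
  have hRr : (1 : ℝ) ≤ R := by exact_mod_cast hR
  have hρ0 : 0 ≤ Real.log R := Real.log_nonneg hRr
  have hPS : Disjoint P S := by
    rw [hP]
    exact sdiff_disjoint
  have hVS0 : 0 ≤ V S := by
    unfold V
    refine prod_nonneg fun p hp => ?_
    have hp2 : (2 : ℝ) ≤ p := by exact_mod_cast (hS p hp).1.two_le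
    rw [sub_nonneg, div_le_one (by linarith)]
    linarith
  have hmk : 0 ≤ mk k := by
    unfold mk
    split_ifs with h1
    · exact zero_le_one
    · refine div_nonneg (Real.log_natCast_nonneg k) ?_
      have : (1 : ℝ) ≤ k := by exact_mod_cast hk
      linarith
  set κ := Real.exp (1 / y * Real.log R) * (V S * ((1 + ε) * mk k + ε / ε')) with hκ
  have hκ0 : 0 ≤ κ := by positivity
  have hT := hTT X hX1 y S P hy (fun p hp => (hS p hp).1) hSc (fun p hp => (hPp p hp).1) hPS hB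
    (1 / y) (Real.log R) (by positivity) hη hρ0
  -- the functions supported on the classes
  set D := DD 1 P with hD
  set Fa : ℕ → ℕ → ℝ := fun a n => if n % W = a then F n else 0 with hFa
  set Ha : ℕ → Finset ℕ := fun a => SV H S a with hHa
  have hHaH : ∀ a, Ha a ⊆ H := fun a => filter_subset _ _
  set Φ : ℝ := κ * Real.exp (1 / y * Real.log R) *
    (k * (Real.log R + ε' * Real.log X + 1 / y * Real.log R)) with hΦ
  have key : ∀ a ∈ range W, 1 / D * Bin N (Ha a) 1 (Fa a) P ≤ Φ * SS N (Fa a) := by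
    intro a _
    rw [hD, ← JJ_Bin fun p hp => (hPp p hp).1]
    refine sites (hok _ (hHaH a)) (hF.cls a) hRr (by exact_mod_cast hk) ?_ ?_ (by positivity)
      hκ0 hη hη' (by positivity) hT
    · have := (card_le_card (hHaH a)).trans hHk
      exact_mod_cast this
    · have : 0 < ε' * Real.log X := by positivity
      linarith
  have e1 : ∑ a ∈ range W, Bin N (Ha a) 1 (Fa a) P =
      ∑ n ∈ range N, F n ^ 2 * (SV H (PQ Q) n).card := by
    have h1 : ∀ a ∈ range W, Bin N (Ha a) 1 (Fa a) P =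
        ∑ n ∈ range N, (if n % W = a then F n ^ 2 * ((SV (Ha a) P n).card : ℝ) else 0) := by
      intro a _
      unfold Bin
      refine sum_congr rfl fun n _ => ?_
      simp only [hFa]
      rw [Nat.choose_one_right]
      split_ifs <;> simp
    rw [sum_congr rfl h1, sum_cls' hW0 (fun a n => F n ^ 2 * ((SV (Ha a) P n).card : ℝ))]
    refine sum_congr rfl fun n _ => ?_
    simp only [hHa]
    rw [SV_mod hSW, SV_SV, hSP]
  have e3 : ∑ a ∈ range W, SS N (Fa a) = ∑ n ∈ range N, F n ^ 2 := by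
    have h1 : ∀ a ∈ range W, SS N (Fa a) =
        ∑ n ∈ range N, (if n % W = a then F n ^ 2 else 0) := by
      intro a _
      unfold SS
      refine sum_congr rfl fun n _ => ?_
      simp only [hFa]
      split_ifs <;> simp
    rw [sum_congr rfl h1, sum_cls' hW0 (fun _ n => F n ^ 2)]
  have h1 := sum_le_sum key
  rw [← mul_sum, ← mul_sum, e1, e3] at h1
  refine h1.trans (le_of_eq ?_)
  rw [hΦ, hκ]
  have h2 : Real.exp (2 * (Real.log R / y)) =
      Real.exp (1 / y * Real.log R) * Real.exp (1 / y * Real.log R) := by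
    rw [← Real.exp_add]
    congr 1
    ring
  rw [h2]
  ring

end Pool.Agent.Y830.MO
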