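import Pool.Agent.Y830.PR.Cls

/-!
The three components of a function with respect to one prime and one site.
-/

set_option autoImplicit false

namespace Pool.Agent.Y830.MO

open Finset
open Pool.Agent.Y835.SB Pool.Agent.Y830.SQ

/-- the algebra on one fibre -/
theorem fibre {K p : ℕ} (hp : 2 ≤ p) (g : ℕ → ℝ) (Z : Finset ℕ) (hZ : Z ⊆ range K)
    (hc : Z.card * p = K) (hK : 0 < K) (u : ℕ → ℝ) (hu1 : ∀ t ∈ Z, u t = 1 - p)
    (hu2 : ∀ t ∈ range K \ Z, u t = 1) (a b : ℝ) (ha : a = (∑ t ∈ range K, g t) / K)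
    (hb : b = (∑ t ∈ range K, u t * g t) / K / (p - 1)) :
    ∑ t ∈ range K, g t ^ 2 = K * a ^ 2 + (p - 1) * (K * b ^ 2) +
        ∑ t ∈ range K, (g t - a - u t * b) ^ 2 ∧
      p / (p - 1) * ∑ t ∈ range K \ Z, g t ^ 2 ≤
        K * (a + b) ^ 2 + p / (p - 1) * ∑ t ∈ range K, (g t - a - u t * b) ^ 2 ∧
      (p - 1) * (K * b ^ 2) ≤ p / (p - 1) * ∑ t ∈ Z, (g t - a) ^ 2 := by
  have hK0 : (0 : ℝ) < K := by exact_mod_cast hK
  have hp2 : (2 : ℝ) ≤ p := by exact_mod_cast hp
  have hp0 : (0 : ℝ) < p := by linarith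
  have hp1 : (0 : ℝ) < p - 1 := by linarith
  have hcard : (Z.card : ℝ) * p = K := by exact_mod_cast hc
  set m : ℝ := (Z.card : ℝ) with hm
  have hm0 : 0 < m := by
    by_contra h
    have : m * p ≤ 0 := mul_nonpos_of_nonpos_of_nonneg (not_lt.1 h) hp0.le
    linarith
  have hKc : ((range K \ Z).card : ℝ) = K - m := by
    rw [card_sdiff_of_subset hZ, card_range, Nat.cast_sub, hm]
    have := card_le_card hZ
    rwa [card_range] at this
  -- the sums
  have hs : ∀ f : ℕ → ℝ, ∑ t ∈ range K, f t = ∑ t ∈ range K \ Z, f t + ∑ t ∈ Z, f t :=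
    fun f => (sum_sdiff hZ).symm
  set S1 : ℝ := ∑ t ∈ range K \ Z, g t with hS1
  set S2 : ℝ := ∑ t ∈ Z, g t with hS2
  set Q1 : ℝ := ∑ t ∈ range K \ Z, g t ^ 2 with hQ1
  set Q2 : ℝ := ∑ t ∈ Z, g t ^ 2 with hQ2
  have ha' : a = (S1 + S2) / (m * p) := by rw [ha, hs, hcard]
  have hb' : b = (S1 + (1 - p) * S2) / (m * p) / (p - 1) := by
    rw [hb, hs, hcard]
    congr 2
    congr 1
    · exact sum_congr rfl fun t ht => by rw [hu2 t ht, one_mul]
    · rw [hS2, mul_sum]
      exact sum_congr rfl fun t ht => by rw [hu1 t ht]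
  have hC1 : ∑ t ∈ range K \ Z, (g t - a - u t * b) ^ 2 =
      Q1 - 2 * (a + b) * S1 + (m * p - m) * (a + b) ^ 2 := by
    have h1 : ∀ t ∈ range K \ Z, (g t - a - u t * b) ^ 2 =
        g t ^ 2 - 2 * (a + b) * g t + (a + b) ^ 2 := by
      intro t ht
      rw [hu2 t ht]
      ring
    rw [sum_congr rfl h1, sum_add_distrib, sum_sub_distrib, ← mul_sum, sum_const, nsmul_eq_mul,
      hKc, hcard]
  have hC2 : ∑ t ∈ Z, (g t - a - u t * b) ^ 2 =
      Q2 - 2 * (a + (1 - p) * b) * S2 + m * (a + (1 - p) * b) ^ 2 := by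
    have h1 : ∀ t ∈ Z, (g t - a - u t * b) ^ 2 =
        g t ^ 2 - 2 * (a + (1 - p) * b) * g t + (a + (1 - p) * b) ^ 2 := by
      intro t ht
      rw [hu1 t ht]
      ring
    rw [sum_congr rfl h1, sum_add_distrib, sum_sub_distrib, ← mul_sum, sum_const, nsmul_eq_mul]
  have hCs := hs (fun t => (g t - a - u t * b) ^ 2)
  have hCZ : 0 ≤ ∑ t ∈ Z, (g t - a - u t * b) ^ 2 := sum_nonneg fun _ _ => sq_nonneg _
  have hp1' : (p : ℝ) - 1 ≠ 0 := hp1.ne'
  refine ⟨?_, ?_, ?_⟩
  · rw [hCs, hC1, hC2, hs (fun t => g t ^ 2), ← hcard, ha', hb']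
    field_simp
    ring
  · rw [hCs, mul_add]
    have h1 : p / (p - 1) * Q1 = K * (a + b) ^ 2 +
        p / (p - 1) * ∑ t ∈ range K \ Z, (g t - a - u t * b) ^ 2 := by
      rw [hC1, ← hcard, ha', hb']
      field_simp
      ring
    have h2 : 0 ≤ p / (p - 1) * ∑ t ∈ Z, (g t - a - u t * b) ^ 2 := mul_nonneg (by positivity) hCZ
    linarith
  · have h1 : (∑ t ∈ Z, (g t - a)) ^ 2 ≤ m * ∑ t ∈ Z, (g t - a) ^ 2 := sq_sum_le_card_mul_sum_sq
    have h2 : ∑ t ∈ Z, (g t - a) = S2 - m * a := by
      rw [sum_sub_distrib, sum_const, nsmul_eq_mul]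
    have h3 : (p - 1) * (K * b ^ 2) = p / (p - 1) * ((∑ t ∈ Z, (g t - a)) ^ 2 / m) := by
      rw [h2, ← hcard, ha', hb']
      field_simp
      ring
    rw [h3]
    refine mul_le_mul_of_nonneg_left ?_ (by positivity)
    rw [div_le_iff₀ hm0]
    linarith

/-- the average over the coordinate at `p` -/
noncomputable def AA (N p : ℕ) (F : ℕ → ℝ) : ℕ → ℝ := Av (Mc N p) (Kc N p) F

open Classical in
/-- the function `1 - p 1_{p ∣ n + h}` -/
noncomputable def uu (p h n : ℕ) : ℝ := if p ∣ n + h then 1 - p else 1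

/-- the component along `uu` -/
noncomputable def BB (N h p : ℕ) (F : ℕ → ℝ) (n : ℕ) : ℝ :=
  AA N p (fun m => uu p h m * F m) n / (p - 1)

/-- the remaining component -/
noncomputable def CC (N h p : ℕ) (F : ℕ → ℝ) (n : ℕ) : ℝ :=
  F n - AA N p F n - uu p h n * BB N h p F n

theorem dc {N p : ℕ} (hN : 0 < N) (hp : p.Prime) (hpN : p ∣ N) :
    Dat N (Mc N) (Kc N) {p} :=
  datc hN fun q hq => by rw [mem_singleton] at hq; subst hq; exact ⟨hp, hpN⟩

theorem uu_per {p m : ℕ} (h : ℕ) (hpm : p ∣ m) : Function.Periodic (uu p h) m := by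
  intro n
  unfold uu
  refine if_congr ?_ rfl rfl
  rw [show n + m + h = n + h + m by ring]
  exact (Nat.dvd_add_iff_left hpm).symm

theorem mul_per {F G : ℕ → ℝ} {m : ℕ} (hF : Function.Periodic F m) (hG : Function.Periodic G m) :
    Function.Periodic (fun n => F n * G n) m := fun n => by
  simp only [hF n, hG n]

theorem AA_per {N p : ℕ} {F : ℕ → ℝ} {m : ℕ} (hF : Function.Periodic F m) :
    Function.Periodic (AA N p F) m := Av_per hF

theorem AA_perM {N p : ℕ} (hN : 0 < N) (hp : p.Prime) (hpN : p ∣ N) {F : ℕ → ℝ}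
    (hF : Function.Periodic F N) : Function.Periodic (AA N p F) (Mc N p) := by
  refine Av_perM ?_
  rw [(dc hN hp hpN).mul p (mem_singleton_self p)]
  exact hF

theorem BB_per {N h p : ℕ} {F : ℕ → ℝ} {m : ℕ} (hpm : p ∣ m) (hF : Function.Periodic F m) :
    Function.Periodic (BB N h p F) m := by
  intro n
  unfold BB
  rw [AA_per (mul_per (uu_per h hpm) hF) n]

theorem BB_perM {N h p : ℕ} (hN : 0 < N) (hp : p.Prime) (hpN : p ∣ N) {F : ℕ → ℝ}
    (hF : Function.Periodic F N) : Function.Periodic (BB N h p F) (Mc N p) := by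
  intro n
  unfold BB
  rw [AA_perM hN hp hpN (mul_per (uu_per h hpN) hF) n]

theorem CC_per {N h p : ℕ} {F : ℕ → ℝ} {m : ℕ} (hpm : p ∣ m) (hF : Function.Periodic F m) :
    Function.Periodic (CC N h p F) m := by
  intro n
  unfold CC
  rw [hF n, AA_per hF n, uu_per h hpm n, BB_per hpm hF n]

open Classical in
/-- the step: the mass not hit by `p` -/
theorem stepM {N p : ℕ} (hN : 0 < N) (hp : p.Prime) (hpN : p ∣ N) (h : ℕ) {F U : ℕ → ℝ}
    (hF : Function.Periodic F N) (hU : Function.Periodic U (Mc N p)) (hU0 : ∀ n, 0 ≤ U n) :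
    p / (p - 1) * ∑ n ∈ range N, (if p ∣ n + h then 0 else F n ^ 2) * U n ≤
      ∑ n ∈ range N, (AA N p F n + BB N h p F n) ^ 2 * U n +
        p / (p - 1) * ∑ n ∈ range N, CC N h p F n ^ 2 * U n ∧
    SS N F = SS N (AA N p F) + (p - 1) * SS N (BB N h p F) + SS N (CC N h p F) ∧
    (p - 1) * SS N (BB N h p F) ≤ p / (p - 1) * yy N (Mc N) (Kc N) F h p := by
  have hD := dc hN hp hpN
  have hpm := mem_singleton_self p
  have hMK : Mc N p * Kc N p = N := hD.mul p hpm
  obtain ⟨k, hk, hKk⟩ := hD.pow p hpm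
  have hM : ¬ p ∣ Mc N p := hD.ndvd p hpm
  have hK0 : 0 < Kc N p := hD.Kpos hpm
  set M := Mc N p with hMd
  set K := Kc N p with hKd
  have hKr : (0 : ℝ) < K := by exact_mod_cast hK0
  have hp2 : (2 : ℝ) ≤ p := by exact_mod_cast hp.two_le
  have hp1 : (0 : ℝ) < p - 1 := by linarith
  have hA : Function.Periodic (AA N p F) M := AA_perM hN hp hpN hF
  have hB : Function.Periodic (BB N h p F) M := BB_perM hN hp hpN hF
  have hAN : Function.Periodic (AA N p F) N := AA_per hF
  have hBN : Function.Periodic (BB N h p F) N := BB_per hpN hF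
  have hCN : Function.Periodic (CC N h p F) N := CC_per hpN hF
  have hUN : Function.Periodic U N := by
    intro n
    rw [← hMK, mul_comm]
    have := hU.nat_mul K n
    rwa [Nat.cast_id] at this
  have shift : ∀ {G : ℕ → ℝ}, Function.Periodic G M → ∀ n t, G (n + M * t) = G n := by
    intro G hG n t
    have := hG.nat_mul t n
    rwa [Nat.cast_id, mul_comm] at this
  have hdv : ∀ n : ℕ, (p ∣ n + N + h) ↔ (p ∣ n + h) := by
    intro n
    have e : n + N + h = n + h + N := by ring
    rw [e]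
    exact (Nat.dvd_add_iff_left hpN).symm
  -- the fibre facts
  have fb : ∀ n : ℕ, _ := fun n => fibre hp.two_le (fun t => F (n + M * t))
    ((range K).filter (fun t => p ∣ (n + h) + M * t)) (filter_subset _ _)
    (fib_card hp hKk hk hM (n + h)) hK0 (fun t => uu p h (n + M * t))
    (fun t ht => by
      have := (mem_filter.1 ht).2
      simp only [uu]
      rw [if_pos (by rw [show n + M * t + h = n + h + M * t by ring]; exact this)])
    (fun t ht => by
      rw [mem_sdiff, mem_filter, not_and] at ht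
      have := ht.2 ht.1
      simp only [uu]
      rw [if_neg (by rw [show n + M * t + h = n + h + M * t by ring]; exact this)])
    (AA N p F n) (BB N h p F n) rfl rfl
  have hCt : ∀ n t, CC N h p F (n + M * t) =
      F (n + M * t) - AA N p F n - uu p h (n + M * t) * BB N h p F n := by
    intro n t
    unfold CC
    rw [shift hA, shift hB]
  -- sums over the period
  have av : ∀ {G : ℕ → ℝ} {V : ℕ → ℝ}, Function.Periodic G N → Function.Periodic V M →
      ∑ n ∈ range N, G n * V n = ∑ n ∈ range N, (∑ t ∈ range K, G (n + M * t)) / K * V n := by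
    intro G V hG hV
    have hVN : Function.Periodic V N := by
      intro n
      rw [← hMK, mul_comm]
      have := hV.nat_mul K n
      rwa [Nat.cast_id] at this
    rw [← sum_Av (M := M) hK0 (F := fun n => G n * V n) (mul_per hG hVN)]
    exact sum_congr rfl fun n _ => by rw [Av_mul hV]; rfl
  have one_per : Function.Periodic (fun _ : ℕ => (1 : ℝ)) M := fun _ => rfl
  refine ⟨?_, ?_, ?_⟩
  · have e1 : ∑ n ∈ range N, (if p ∣ n + h then 0 else F n ^ 2) * U n =
        ∑ n ∈ range N, (∑ t ∈ range K \ (range K).filter (fun t => p ∣ (n + h) + M * t),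
          F (n + M * t) ^ 2) / K * U n := by
      rw [av (G := fun n => if p ∣ n + h then 0 else F n ^ 2)
        (fun n => by simp only [hF n, hdv n]) hU]
      refine sum_congr rfl fun n _ => ?_
      congr 2
      rw [← filter_not, sum_filter]
      refine sum_congr rfl fun t _ => ?_
      rw [show n + M * t + h = n + h + M * t by ring]
      split_ifs with h1
      · rfl
      · rfl
    have e2 : ∑ n ∈ range N, CC N h p F n ^ 2 * U n = ∑ n ∈ range N, (∑ t ∈ range K,
        (F (n + M * t) - AA N p F n - uu p h (n + M * t) * BB N h p F n) ^ 2) / K * U n := by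
      rw [av (G := fun n => CC N h p F n ^ 2) (fun n => by simp only [hCN n]) hU]
      refine sum_congr rfl fun n _ => ?_
      congr 2
      exact sum_congr rfl fun t _ => by rw [hCt]
    rw [e1, e2, mul_sum, mul_sum, ← sum_add_distrib]
    refine sum_le_sum fun n _ => ?_
    have h1 := mul_le_mul_of_nonneg_right (fb n).2.1 (div_nonneg (hU0 n) hKr.le)
    refine le_of_eq_of_le ?_ (h1.trans (le_of_eq ?_))
    · ring
    · field_simp
  · have e1 : SS N F = ∑ n ∈ range N, (∑ t ∈ range K, F (n + M * t) ^ 2) / K * 1 := by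
      rw [← av (G := fun n => F n ^ 2) (fun n => by simp only [hF n]) one_per]
      unfold SS
      exact sum_congr rfl fun n _ => (mul_one _).symm
    have e2 : SS N (CC N h p F) = ∑ n ∈ range N, (∑ t ∈ range K,
        (F (n + M * t) - AA N p F n - uu p h (n + M * t) * BB N h p F n) ^ 2) / K * 1 := by
      have h1 : SS N (CC N h p F) = ∑ n ∈ range N, CC N h p F n ^ 2 * 1 := by
        unfold SS
        exact sum_congr rfl fun n _ => (mul_one _).symm
      rw [h1, av (G := fun n => CC N h p F n ^ 2) (fun n => by simp only [hCN n]) one_per]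
      refine sum_congr rfl fun n _ => ?_
      congr 2
      exact sum_congr rfl fun t _ => by rw [hCt]
    rw [e1, e2]
    unfold SS
    rw [mul_sum, ← sum_add_distrib, ← sum_add_distrib]
    refine sum_congr rfl fun n _ => ?_
    rw [(fb n).1]
    field_simp
  · have e1 : yy N (Mc N) (Kc N) F h p = ∑ n ∈ range N,
        (∑ t ∈ (range K).filter (fun t => p ∣ (n + h) + M * t),
          (F (n + M * t) - AA N p F n) ^ 2) / K * 1 := by
      unfold yy
      have h1 : ∀ n, (if p ∣ n + h then (F n - Av (Mc N p) (Kc N p) F n) ^ 2 else (0 : ℝ)) =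
          (if p ∣ n + h then (F n - AA N p F n) ^ 2 else (0 : ℝ)) * 1 := fun n => by
        rw [mul_one]
        rfl
      rw [sum_congr rfl fun n _ => h1 n,
        av (G := fun n => if p ∣ n + h then (F n - AA N p F n) ^ 2 else (0 : ℝ))
        (fun n => by simp only [hF n, hdv n, hAN n]) one_per]
      refine sum_congr rfl fun n _ => ?_
      congr 2
      rw [sum_filter]
      refine sum_congr rfl fun t _ => ?_
      rw [shift hA, show n + M * t + h = n + h + M * t by ring]
    rw [e1]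
    unfold SS
    rw [mul_sum, mul_sum]
    refine sum_le_sum fun n _ => ?_
    have h1 := div_le_div_of_nonneg_right (fb n).2.2 hKr.le
    refine le_of_eq_of_le ?_ (h1.trans (le_of_eq ?_))
    · field_simp
    · ring

end Pool.Agent.Y830.MO
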