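import Pool.Agent.Y830.MO.Ari
import Pool.Agent.Y830.PR.Int2

/-!
The reciprocals of the integers free of the primes of `S`.
-/

set_option autoImplicit false

namespace Pool.Agent.Y830.MO

open Finset Filter Topology
open Pool.Agent.Y829 Pool.Agent.Y829.RP Pool.Agent.Y830.SQ Pool.Agent.Y830.PR

theorem V_low : ∃ c : ℝ, 0 < c ∧ c ≤ 1 ∧ ∀ (y : ℕ) (S : Finset ℕ), 3 ≤ y → (∀ p ∈ S, p.Prime) →
    (S.filter (fun p => y < p)).card ≤ y → c / Real.log y ≤ V S := by
  classical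
  obtain ⟨cm, hcm, hmert⟩ := mert
  refine ⟨min 1 (cm * Real.exp (-2)), lt_min one_pos (mul_pos hcm (Real.exp_pos _)),
    min_le_left _ _, fun y S hy hS hSc => ?_⟩
  have hly := one_le_log hy
  have hy0 : (0 : ℝ) < y := by exact_mod_cast (by omega : 0 < y)
  have h1 : V S = V (S.filter (fun p => y < p)) * V (S.filter (fun p => ¬ y < p)) := by
    unfold V
    rw [prod_filter_mul_prod_filter_not]
  have h2 : cm / Real.log y ≤ V (S.filter (fun p => ¬ y < p)) :=
    hmert y (by omega) _ fun p hp => by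
      rw [mem_filter] at hp
      exact ⟨hS p hp.1, by omega⟩
  have h3 : Real.exp (-2) ≤ V (S.filter (fun p => y < p)) := by
    have h4 : Real.exp (-2) ≤ Real.exp (∑ p ∈ S.filter (fun p => y < p), (-(2 / (p : ℝ)))) := by
      refine Real.exp_le_exp.2 ?_
      rw [sum_neg_distrib, neg_le_neg_iff]
      have h5 : ∑ p ∈ S.filter (fun p => y < p), 2 / (p : ℝ) ≤
          ∑ _p ∈ S.filter (fun p => y < p), 2 / (y : ℝ) := by
        refine sum_le_sum fun p hp => div_le_div_of_nonneg_left (by norm_num) hy0 ?_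
        exact_mod_cast (mem_filter.1 hp).2.le
      rw [sum_const, nsmul_eq_mul] at h5
      have h6 : ((S.filter (fun p => y < p)).card : ℝ) ≤ y := by exact_mod_cast hSc
      have h7 := mul_le_mul_of_nonneg_right h6 (by positivity : (0 : ℝ) ≤ 2 / y)
      have h8 : (y : ℝ) * (2 / y) = 2 := by field_simp
      linarith
    refine h4.trans ?_
    rw [Real.exp_sum]
    unfold V
    refine prod_le_prod (fun p _ => (Real.exp_pos _).le) fun p hp => ?_
    rw [mem_filter] at hp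
    have hp2 : (2 : ℝ) ≤ p := by exact_mod_cast (hS p hp.1).two_le
    have hp0 : (0 : ℝ) < p := by linarith
    have h5 : 0 < 1 - 1 / (p : ℝ) := by
      rw [sub_pos, div_lt_one hp0]
      linarith
    rw [← Real.log_le_log_iff (Real.exp_pos _) h5, Real.log_exp]
    have h6 := Real.one_sub_inv_le_log_of_pos h5
    refine le_trans ?_ h6
    have h7 : 1 - (1 - 1 / (p : ℝ))⁻¹ = -(1 / (p - 1)) := by
      have : (p : ℝ) - 1 ≠ 0 := by linarith
      field_simp
      ring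
    rw [h7, neg_le_neg_iff, div_le_div_iff₀ (by linarith) hp0]
    linarith
  rw [h1]
  have h4 : min 1 (cm * Real.exp (-2)) / Real.log y ≤ Real.exp (-2) * (cm / Real.log y) := by
    have h5 : min 1 (cm * Real.exp (-2)) ≤ cm * Real.exp (-2) := min_le_right _ _
    calc min 1 (cm * Real.exp (-2)) / Real.log y ≤ (cm * Real.exp (-2)) / Real.log y :=
          div_le_div_of_nonneg_right h5 (by linarith)
      _ = Real.exp (-2) * (cm / Real.log y) := by ring
  exact h4.trans (mul_le_mul h3 h2 (by positivity) ((Real.exp_pos _).le.trans h3))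

theorem cnt_free {S : Finset ℕ} (hS : ∀ p ∈ S, p.Prime) {t : ℕ} {τ M0 : ℝ}
    (h1 : (∑ p ∈ S, 1 / (p : ℝ)) ^ t / (t.factorial : ℕ) ≤ τ)
    (h2 : ((t : ℝ) + 1) * (1 + (S.card : ℝ)) ^ t ≤ M0) (u : ℕ) :
    (((Icc 1 u).filter (fun d => ∀ p ∈ S, ¬ p ∣ d)).card : ℝ) ≤ (V S + 2 * τ) * u + M0 := by
  have hS' : ∀ p ∈ S, p.Prime ∧ ¬ p ∣ 1 := fun p hp => ⟨hS p hp, (hS p hp).not_dvd_one⟩
  have h3 := (abs_le.1 (brun 1 u 1 0 0 Nat.zero_lt_one Nat.zero_lt_one S hS' t)).2
  have h3' : (((Icc 1 u).filter (fun d => ∀ p ∈ S, ¬ p ∣ d)).card : ℝ) -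
      (u : ℝ) / (1 : ℕ) * ∏ p ∈ S, (1 - 1 / (p : ℝ)) ≤
      2 * ((u : ℝ) / (1 : ℕ)) * ((∑ p ∈ S, 1 / (p : ℝ)) ^ t / (t.factorial : ℕ)) +
        (t + 1) * (1 + (S.card : ℝ)) ^ t := by
    refine le_of_eq_of_le ?_ h3
    congr 3
    ext d
    rw [mem_filter, mem_filter, mem_Ico, mem_Icc, add_zero]
    constructor
    · rintro ⟨h2, h3⟩
      exact ⟨by omega, Nat.mod_one d, h3⟩
    · rintro ⟨h2, h3⟩
      exact ⟨by omega, h3.2⟩
  clear h3
  rename' h3' => h3
  have h4 : ∏ p ∈ S, (1 - 1 / (p : ℝ)) = V S := rfl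
  rw [h4, Nat.cast_one, div_one] at h3
  have h5 := mul_le_mul_of_nonneg_left h1 (by positivity : (0 : ℝ) ≤ 2 * u)
  have h6 : (V S + 2 * τ) * u + M0 = u * V S + 2 * u * τ + M0 := by ring
  rw [h6]
  linarith

theorem rough1 : ∃ B X0 : ℕ, ∀ X : ℕ, X0 ≤ X → ∀ (y : ℕ) (S : Finset ℕ),
    3 ≤ y → (∀ p ∈ S, p.Prime) → (S.filter (fun p => y < p)).card ≤ y →
    B * Real.log y * Real.log (Real.log X) ≤ Real.sqrt (Real.log X) →
    ∃ (t : ℕ) (M0 : ℝ), 0 ≤ M0 ∧ Real.log (M0 + 2) ≤ Real.sqrt (Real.log X) + 3 ∧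
      (∑ p ∈ S, 1 / (p : ℝ)) ^ t / (t.factorial : ℕ) ≤ 1 / Real.log X ^ 2 ∧
      ((t : ℝ) + 1) * (1 + (S.card : ℝ)) ^ t ≤ M0 := by
  classical
  obtain ⟨B1, X1, hpar⟩ := small_par 4
  obtain ⟨X2, hX2⟩ := (log_tend.eventually_ge_atTop
    ((X1 : ℝ) ^ 2 + 4)).exists_forall_of_atTop
  refine ⟨B1, X2, fun X hX y S hy hS hSc hB => ?_⟩
  have hL := hX2 X hX
  set L := Real.log (X : ℝ) with hLd
  have hL4 : 4 ≤ L := by
    have h2 : (0 : ℝ) ≤ (X1 : ℝ) ^ 2 := by positivity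
    linarith
  set q := Real.sqrt L with hq
  have hqq : q * q = L := Real.mul_self_sqrt (by linarith)
  have hq0 : 0 ≤ q := Real.sqrt_nonneg _
  have hq2 : 2 ≤ q := by nlinarith
  have hqL : q + 1 ≤ L := by nlinarith
  have hX1q : (X1 : ℝ) ≤ q := by
    have h2 : (X1 : ℝ) ^ 2 ≤ q ^ 2 := by rw [sq q, hqq]; linarith
    exact (abs_le_of_sq_le_sq' h2 hq0).2
  have hly := one_le_log hy
  -- the auxiliary parameter
  obtain ⟨X', hX'1, hX'2⟩ : ∃ X' : ℕ, Real.exp q ≤ X' ∧ (X' : ℝ) ≤ 2 * Real.exp q := by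
    refine ⟨⌈Real.exp q⌉₊, Nat.le_ceil _, ?_⟩
    have h1 := (Nat.ceil_lt_add_one (Real.exp_pos q).le).le
    have h2 : 1 ≤ Real.exp q := Real.one_le_exp hq0
    linarith
  have hX'0 : (0 : ℝ) < X' := lt_of_lt_of_le (Real.exp_pos _) hX'1
  have hl1 : q ≤ Real.log X' := by
    rw [← Real.log_exp q]
    exact Real.log_le_log (Real.exp_pos _) hX'1
  have hl2 : Real.log X' ≤ q + 1 := by
    have h1 := Real.log_le_log hX'0 hX'2
    rw [Real.log_mul (by norm_num) (Real.exp_pos q).ne', Real.log_exp] at h1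
    have := Real.log_two_lt_d9
    linarith
  have hl3 : Real.log X' ≤ L := by linarith
  have hX1' : X1 ≤ X' := by
    have h1 : (X1 : ℝ) ≤ X' := by
      have := Real.add_one_le_exp q
      linarith
    exact_mod_cast h1
  have hBy : (B1 : ℝ) * Real.log y * Real.log (Real.log X') ≤ Real.log X' := by
    have h1 : Real.log (Real.log X') ≤ Real.log L := Real.log_le_log (by linarith) hl3
    have h2 : (B1 : ℝ) * Real.log y * Real.log (Real.log X') ≤ B1 * Real.log y * Real.log L :=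
      mul_le_mul_of_nonneg_left h1 (by positivity)
    linarith
  obtain ⟨t, ht1, ht2⟩ := hpar X' hX1' y S hy hS hSc hBy
  refine ⟨t, (X' : ℝ) ^ (1 / 4 : ℝ), by positivity, ?_, ?_, ht2⟩
  · have hX'r : (1 : ℝ) ≤ X' := (Real.one_le_exp hq0).trans hX'1
    have h2 : (X' : ℝ) ^ (1 / 4 : ℝ) ≤ X' := by
      calc (X' : ℝ) ^ (1 / 4 : ℝ) ≤ (X' : ℝ) ^ (1 : ℝ) :=
            Real.rpow_le_rpow_of_exponent_le hX'r (by norm_num)
        _ = X' := Real.rpow_one _
    have h4 := Real.log_le_log (by positivity) (by linarith : (X' : ℝ) ^ (1 / 4 : ℝ) + 2 ≤ 4 * X')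
    rw [Real.log_mul (by norm_num) hX'0.ne'] at h4
    have h5 : Real.log 4 ≤ 2 := by
      have : Real.log 4 = 2 * Real.log 2 := by
        rw [← Real.log_rpow (by norm_num)]
        norm_num
      have := Real.log_two_lt_d9
      linarith
    linarith
  · refine ht1.trans (one_div_le_one_div_of_le (by positivity) ?_)
    have h4 : q ^ 4 ≤ Real.log (X' : ℝ) ^ 4 := pow_le_pow_left₀ hq0 hl1 4
    have h5 : q ^ 4 = L ^ 2 := by rw [← hqq]; ring
    linarith

theorem rough_sum (ε : ℝ) (hε : 0 < ε) : ∃ B X0 : ℕ, ∀ X : ℕ, X0 ≤ X → ∀ (y : ℕ) (S : Finset ℕ),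
    3 ≤ y → (∀ p ∈ S, p.Prime) → (S.filter (fun p => y < p)).card ≤ y →
    B * Real.log y * Real.log (Real.log X) ≤ Real.sqrt (Real.log X) → ∀ s : ℝ, 0 ≤ s →
    ∑ d ∈ (Icc 1 ⌊Real.exp s⌋₊).filter (fun d => ∀ p ∈ S, ¬ p ∣ d), 1 / (d : ℝ) ≤
      V S * ((1 + ε) * s + ε * Real.log X) := by
  obtain ⟨c, hc0, hc1, hV⟩ := V_low
  obtain ⟨B1, X1, hr1⟩ := rough1
  obtain ⟨X2, hX2⟩ := (log_tend.eventually_ge_atTop (4 + 2 / (ε * c))).exists_forall_of_atTop
  obtain ⟨X3, hX3⟩ := ((Real.tendsto_log_atTop.comp log_tend).eventually_ge_atTop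
    (1 + 7 / (ε * c))).exists_forall_of_atTop
  refine ⟨B1 + 1, max X1 (max X2 X3), fun X hX y S hy hS hSc hB s hs => ?_⟩
  have hL := hX2 X ((le_max_left _ _).trans ((le_max_right _ _).trans hX))
  have hLL := hX3 X ((le_max_right _ _).trans ((le_max_right _ _).trans hX))
  have hX1 : X1 ≤ X := (le_max_left _ _).trans hX
  simp only [Function.comp] at hLL
  set L := Real.log (X : ℝ) with hLd
  have hεc : 0 < ε * c := mul_pos hε hc0
  have hL4 : 4 ≤ L := by
    have h1 : 0 ≤ 2 / (ε * c) := by positivity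
    linarith
  have hL2 : 2 / (ε * c) ≤ L := by linarith
  have hLL1 : 1 ≤ Real.log L := by
    have h1 : 0 ≤ 7 / (ε * c) := by positivity
    linarith
  set q := Real.sqrt L with hq
  have hqq : q * q = L := Real.mul_self_sqrt (by linarith)
  have hq0 : 0 ≤ q := Real.sqrt_nonneg _
  have hq2 : 2 ≤ q := by nlinarith
  have hqL : q ≤ L := by nlinarith
  have hly := one_le_log hy
  have hBn : (1 : ℝ) ≤ ((B1 + 1 : ℕ) : ℝ) ∧ (B1 : ℝ) ≤ ((B1 + 1 : ℕ) : ℝ) := by
    push_cast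
    have : (0 : ℝ) ≤ B1 := Nat.cast_nonneg _
    constructor <;> linarith
  have hyL : 0 ≤ Real.log y * Real.log L := by positivity
  have hB1 : B1 * Real.log y * Real.log L ≤ q := by
    have := mul_le_mul_of_nonneg_right hBn.2 hyL
    linarith
  obtain ⟨t, M0, hM00, hMl, ht1, ht2⟩ := hr1 X hX1 y S hy hS hSc hB1
  obtain ⟨M, hM1, hM2⟩ : ∃ M : ℕ, M0 ≤ M ∧ (M : ℝ) ≤ M0 + 1 :=
    ⟨⌈M0⌉₊, Nat.le_ceil _, (Nat.ceil_lt_add_one hM00).le⟩
  have hMl' : Real.log ((M : ℝ) + 1) ≤ q + 3 :=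
    le_trans (Real.log_le_log (by positivity) (by linarith)) hMl
  have hVS := hV y S hy hS hSc
  have hVS0 : 0 < V S := lt_of_lt_of_le (by positivity) hVS
  have hVS1 : V S ≤ 1 := by
    unfold V
    refine prod_le_one (fun p hp => ?_) fun p hp => ?_
    · have hp2 : (2 : ℝ) ≤ p := by exact_mod_cast (hS p hp).two_le
      rw [sub_nonneg, div_le_one (by linarith)]
      linarith
    · have : (0 : ℝ) ≤ 1 / (p : ℝ) := by positivity
      linarith
  obtain ⟨v, hv⟩ : ∃ v : ℝ, v = V S + 2 * (1 / L ^ 2) := ⟨_, rfl⟩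
  have hv0 : 0 ≤ v := by rw [hv]; positivity
  have hcnt : ∀ u : ℕ, (((Icc 1 u).filter (fun d => ∀ p ∈ S, ¬ p ∣ d)).card : ℝ) ≤ v * u + M := by
    intro u
    have := cnt_free hS ht1 ht2 u
    rw [← hv] at this
    linarith
  obtain ⟨n, hn⟩ : ∃ n : ℕ, n = ⌊Real.exp s⌋₊ := ⟨_, rfl⟩
  have hrec := recip hv0 hcnt n
  rw [← hn]
  refine hrec.trans ?_
  -- the size of the terms
  have hn' : Real.log ((n : ℝ) + 1) ≤ s + 1 := by
    have h1 : (n : ℝ) ≤ Real.exp s := by rw [hn]; exact Nat.floor_le (Real.exp_pos s).le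
    have h2 : 1 ≤ Real.exp s := Real.one_le_exp hs
    have h3 : Real.log ((n : ℝ) + 1) ≤ Real.log (2 * Real.exp s) :=
      Real.log_le_log (by positivity) (by linarith)
    rw [Real.log_mul (by norm_num) (Real.exp_pos s).ne', Real.log_exp] at h3
    have := Real.log_two_lt_d9
    linarith
  have hL21 : 2 * (1 / L ^ 2) ≤ 1 := by
    rw [mul_one_div, div_le_one (by positivity)]
    nlinarith
  have hv2 : v ≤ 2 := by linarith
  -- `log y`
  have hyq : Real.log y * Real.log L ≤ q := by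
    have h1 : 1 * (Real.log y * Real.log L) ≤ ((B1 + 1 : ℕ) : ℝ) * (Real.log y * Real.log L) :=
      mul_le_mul_of_nonneg_right hBn.1 hyL
    linarith
  have hyq1 : Real.log y ≤ q := by nlinarith
  have hVL : c * Real.log L * q ≤ V S * L := by
    have h1 : c / Real.log y * L ≤ V S * L := mul_le_mul_of_nonneg_right hVS (by linarith)
    refine le_trans ?_ h1
    rw [div_mul_eq_mul_div, le_div_iff₀ (by linarith), ← hqq]
    have h2 : c * q * (Real.log y * Real.log (q * q)) ≤ c * q * q :=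
      mul_le_mul_of_nonneg_left (by rw [hqq]; exact hyq) (by positivity)
    linarith
  have h7 : q + 7 ≤ ε * (V S * L) := by
    have h1 := mul_le_mul_of_nonneg_left hVL hε.le
    refine le_trans ?_ h1
    have h2 : ε * c * (1 + 7 / (ε * c)) ≤ ε * c * Real.log L :=
      mul_le_mul_of_nonneg_left hLL hεc.le
    have h3 : ε * c * (1 + 7 / (ε * c)) = ε * c + 7 := by field_simp
    rw [h3] at h2
    have h4 := mul_le_mul_of_nonneg_right (by linarith : 7 ≤ ε * c * Real.log L) hq0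
    linarith
  have h8 : 2 * (1 / L ^ 2) ≤ ε * V S := by
    have h1 : ε * c / q ≤ ε * V S := by
      rw [mul_div_assoc]
      refine mul_le_mul_of_nonneg_left ?_ hε.le
      refine le_trans ?_ hVS
      exact div_le_div_of_nonneg_left hc0.le (by linarith) hyq1
    refine le_trans ?_ h1
    rw [mul_one_div, div_le_div_iff₀ (by positivity) (by linarith)]
    have h2 : 2 ≤ L * (ε * c) := by
      rwa [div_le_iff₀ hεc] at hL2
    have h3 : q * 2 ≤ L * (L * (ε * c)) := mul_le_mul hqL h2 (by norm_num) (by linarith)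
    linarith
  have h9 : v * Real.log ((n : ℝ) + 1) ≤ v * s + 2 := by
    have := mul_le_mul_of_nonneg_left hn' hv0
    linarith
  have h10 : v * s ≤ (1 + ε) * V S * s := by
    refine mul_le_mul_of_nonneg_right ?_ hs
    linarith
  have h11 : V S * ((1 + ε) * s + ε * L) = (1 + ε) * V S * s + ε * (V S * L) := by ring
  rw [h11]
  linarith

end Pool.Agent.Y830.MO
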