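import Pool.Agent.Y830.MO.Fam

/-!
The sum over the sites, and the dual functional as a sum over the integers.
-/

set_option autoImplicit false

namespace Pool.Agent.Y830.MO

open Finset
open Pool.Agent.Y835.SB Pool.Agent.Y830.SQ

theorem list_sum_toList (P : Finset ℕ) (f : ℕ → ℝ) : (P.toList.map f).sum = ∑ p ∈ P, f p :=
  Finset.sum_map_toList P f

theorem prs_toList {H P : Finset ℕ} {W N : ℕ} (h : Ok H P W N) : Prs N P.toList :=
  ⟨h.1, P.nodup_toList, fun p hp => ⟨(h.2 p (Finset.mem_toList.1 hp)).1,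
    (h.2 p (Finset.mem_toList.1 hp)).2.1⟩⟩

theorem lvl_of {H P : Finset ℕ} {W N : ℕ} {R : ℝ} {V : ℕ → ℝ} (h : Ok H P W N)
    (hV : IsWeight W N R V) : Lvl N P.toList (Real.log R) V := by
  classical
  obtain ⟨I, d, f, h1, h2⟩ := hV
  refine ⟨I, fun i => (d i).primeFactors, f, fun i hi => ?_, ?_⟩
  · obtain ⟨h3, h4, h5, h6⟩ := h1 i hi
    refine ⟨per_of_dvd h6 h5, ?_, ?_⟩
    · intro p hp hpd
      have hp' := h.2 p (Finset.mem_toList.1 hp)
      refine per_of_dvd h6 (cop_dvd hp'.1 hp'.2.2.1 h5 fun h7 => hpd ?_)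
      exact Nat.mem_primeFactors.2 ⟨hp'.1, h7, h3.ne'⟩
    · have h7 : ((P.toList.filter (fun p => p ∈ (d i).primeFactors)).map
          (fun p : ℕ => Real.log p)).sum =
          ∑ p ∈ P.filter (fun p => p ∈ (d i).primeFactors), Real.log p := by
        have h8 : (P.toList.filter (fun p => p ∈ (d i).primeFactors)).Nodup :=
          P.nodup_toList.filter _
        rw [← List.sum_toFinset _ h8]
        refine sum_congr ?_ fun _ _ => rfl
        ext p
        simp
      have h8 : ∑ p ∈ P.filter (fun p => p ∈ (d i).primeFactors), Real.log p ≤ Real.log R := by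
        have hne : ∀ p ∈ P.filter (fun p => p ∈ (d i).primeFactors), (p : ℝ) ≠ 0 := by
          intro p hp
          have := (h.2 p (mem_filter.1 hp).1).1.pos
          exact_mod_cast this.ne'
        rw [← Real.log_prod hne]
        have h9 : ∏ p ∈ P.filter (fun p => p ∈ (d i).primeFactors), p ∣ d i := by
          have h10 : ∏ p ∈ P.filter (fun p => p ∈ (d i).primeFactors), p ∣
              ∏ p ∈ (d i).primeFactors, p :=
            prod_dvd_prod_of_subset _ _ _ fun p hp => (mem_filter.1 hp).2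
          exact h10.trans (Nat.prod_primeFactors_dvd (d i))
        have h10 := Nat.le_of_dvd h3 h9
        have h11 : ((∏ p ∈ P.filter (fun p => p ∈ (d i).primeFactors), p : ℕ) : ℝ) ≤ d i := by
          exact_mod_cast h10
        rw [Nat.cast_prod] at h11
        refine Real.log_le_log (prod_pos fun p hp => ?_) (h11.trans h4)
        have := (h.2 p (mem_filter.1 hp).1).1.pos
        exact_mod_cast this
      convert h8
  · funext m
    rw [h2, Finset.sum_apply]

/-- the sum over the sites -/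
theorem sites {H P : Finset ℕ} {W N : ℕ} {R k lam η κ τ : ℝ} {V : ℕ → ℝ} (h : Ok H P W N)
    (hV : IsWeight W N R V) (hR : 1 ≤ R) (hk : 1 ≤ k) (hHk : (H.card : ℝ) ≤ k)
    (hl : Real.log R < lam) (hη : 0 ≤ η) (hκ : 0 ≤ κ)
    (hη' : ∀ p ∈ P, (p : ℝ) / (p - 1) ≤ Real.exp (η * Real.log p))
    (hτ : ∀ p ∈ P, (p : ℝ) / (p - 1) ≤ 1 + τ) (hτ0 : 0 ≤ τ)
    (hT : ∀ y, 0 ≤ y → y ≤ Real.log R → TT k lam (Real.log R) P.toList 0 y ≤ κ) :
    ∑ s ∈ H, JJ N s P.toList V ≤
      κ * Real.exp (η * Real.log R) * (k * (lam + τ * Real.log R)) * SS N V := by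
  classical
  have hP := prs_toList h
  have hL := lvl_of h hV
  set ρ := Real.log R with hρ
  have hρ0 : 0 ≤ ρ := Real.log_nonneg hR
  have hVN : Function.Periodic V N := hL.per
  have h1 : ∀ s ∈ H, JJ N s P.toList V ≤
      κ * Real.exp (η * ρ) * WW N s k lam P.toList V 0 0 := by
    intro s _
    have h2 := fam (N := N) (h := s) (k := k) (lam := lam) (ρ := ρ) (η := η) (κ := κ) hk hl hη hκ hP
      (fun p hp => hη' p (Finset.mem_toList.1 hp)) Unit (fun _ => V) (fun _ => 0) (fun _ => 1) 0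
      (fun _ => one_pos) (fun _ => le_rfl) (fun _ => by rw [sub_zero, sub_zero]; exact hL)
      (fun y h3 h4 => by simpa using hT y h3 h4)
    simpa using h2
  -- the closed form
  set D : ℕ → ℝ := fun p => SS N (V - Av (Mc N p) (Kc N p) V) with hD
  have hD0 : ∀ p, 0 ≤ D p := fun p => SS_nonneg _ _
  have hlp : ∀ p : ℕ, 0 ≤ Real.log p := fun p => Real.log_natCast_nonneg p
  have h2 : ∀ s ∈ H, WW N s k lam P.toList V 0 0 = lam * SS N V - ∑ p ∈ P, Real.log p * D p +
      k * ∑ p ∈ P, Real.log p * ((p - 1) * SS N (BB N s p V)) := by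
    intro s _
    rw [WW_eq hP hVN, list_sum_toList, list_sum_toList]
    have h3 : ∀ p ∈ P, Real.log p * SS N (CC N s p V) = Real.log p * D p -
        Real.log p * ((p - 1) * SS N (BB N s p V)) := by
      intro p hp
      have hp' := h.2 p hp
      have h4 := (stepM h.1 hp'.1 hp'.2.1 s hVN (U := fun _ => 0) (fun _ => rfl)
        fun _ => le_rfl).2.1
      have hdc := dc h.1 hp'.1 hp'.2.1
      have h5 := orth (N := N) (hdc.mul p (mem_singleton_self p))
        (hdc.Kpos (mem_singleton_self p)) hVN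
      have h6 : SS N (CC N s p V) = D p - (p - 1) * SS N (BB N s p V) := by
        have h7 : SS N (AA N p V) = SS N (Av (Mc N p) (Kc N p) V) := rfl
        rw [h7] at h4
        simp only [hD]
        linarith
      rw [h6]
      ring
    rw [sum_congr rfl h3, sum_sub_distrib]
    ring
  -- the sum over the sites
  have h3 : ∀ p ∈ P, ∑ s ∈ H, ((p : ℝ) - 1) * SS N (BB N s p V) ≤ (1 + τ) * D p := by
    intro p hp
    have hp' := h.2 p hp
    have hp2 : (2 : ℝ) ≤ p := by exact_mod_cast hp'.1.two_le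
    have h4 : ∑ s ∈ H, ((p : ℝ) - 1) * SS N (BB N s p V) ≤
        ∑ s ∈ H, p / (p - 1) * yy N (Mc N) (Kc N) V s p := sum_le_sum fun s _ =>
      (stepM h.1 hp'.1 hp'.2.1 s hVN (U := fun _ => 0) (fun _ => rfl) fun _ => le_rfl).2.2
    have h5 : ∑ s ∈ H, yy N (Mc N) (Kc N) V s p ≤ D p := by
      unfold yy
      simp only [hD]
      unfold SS
      rw [sum_comm]
      refine sum_le_sum fun n _ => ?_
      rw [Pi.sub_apply, ← sum_filter, sum_const, nsmul_eq_mul]
      have h6 : (H.filter (fun s => p ∣ n + s)).card ≤ 1 := by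
        rw [card_le_one]
        intro a ha b hb
        rw [mem_filter] at ha hb
        refine hp'.2.2.2 ha.1 hb.1 ?_
        show a % p = b % p
        have h7 : (n + a) ≡ (n + b) [MOD p] := by
          rw [Nat.ModEq, Nat.mod_eq_zero_of_dvd ha.2, Nat.mod_eq_zero_of_dvd hb.2]
        exact Nat.ModEq.add_left_cancel' _ h7
      have h7 : ((H.filter (fun s => p ∣ n + s)).card : ℝ) ≤ 1 := by exact_mod_cast h6
      have h8 := mul_le_mul_of_nonneg_right h7 (sq_nonneg (V n - Av (Mc N p) (Kc N p) V n))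
      linarith
    have h4' : ∑ s ∈ H, (p : ℝ) / (p - 1) * yy N (Mc N) (Kc N) V s p =
        p / (p - 1) * ∑ s ∈ H, yy N (Mc N) (Kc N) V s p := (mul_sum _ _ _).symm
    rw [h4'] at h4
    refine h4.trans ?_
    have h6 : (0 : ℝ) ≤ p / (p - 1) := div_nonneg (by linarith) (by linarith)
    calc (p : ℝ) / (p - 1) * ∑ s ∈ H, yy N (Mc N) (Kc N) V s p ≤ p / (p - 1) * D p :=
          mul_le_mul_of_nonneg_left h5 h6
      _ ≤ (1 + τ) * D p := mul_le_mul_of_nonneg_right (hτ p hp) (hD0 p)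
  have hlev : ∑ p ∈ P, Real.log p * D p ≤ ρ * SS N V :=
    hV.lev h.1 (fun p hp => ⟨(h.2 p hp).1, (h.2 p hp).2.1⟩) fun p hp => (h.2 p hp).2.2.1
  set Sg := ∑ p ∈ P, Real.log p * D p with hSg
  have hSg0 : 0 ≤ Sg := sum_nonneg fun p _ => mul_nonneg (hlp p) (hD0 p)
  have h4 : ∑ s ∈ H, WW N s k lam P.toList V 0 0 ≤ k * (lam + τ * ρ) * SS N V := by
    rw [sum_congr rfl h2, sum_add_distrib, sum_const, nsmul_eq_mul, ← mul_sum, sum_comm]
    have h5 : ∑ p ∈ P, ∑ s ∈ H, Real.log p * (((p : ℝ) - 1) * SS N (BB N s p V)) ≤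
        (1 + τ) * Sg := by
      rw [hSg, mul_sum]
      refine sum_le_sum fun p hp => ?_
      rw [← mul_sum]
      have := mul_le_mul_of_nonneg_left (h3 p hp) (hlp p)
      linarith
    have h6 := mul_le_mul_of_nonneg_left h5 (by linarith : 0 ≤ k)
    have hSS := SS_nonneg N V
    have h7 : (k - H.card) * Sg ≤ (k - H.card) * (lam * SS N V) := by
      refine mul_le_mul_of_nonneg_left ?_ (by linarith)
      have : ρ * SS N V ≤ lam * SS N V := mul_le_mul_of_nonneg_right hl.le hSS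
      linarith
    have h8 : k * τ * Sg ≤ k * τ * (ρ * SS N V) :=
      mul_le_mul_of_nonneg_left hlev (mul_nonneg (by linarith) hτ0)
    nlinarith
  have h5 : ∑ s ∈ H, JJ N s P.toList V ≤ ∑ s ∈ H, κ * Real.exp (η * ρ) *
      WW N s k lam P.toList V 0 0 := sum_le_sum h1
  rw [← mul_sum] at h5
  have h6 := mul_le_mul_of_nonneg_left h4 (mul_nonneg hκ (Real.exp_pos (η * ρ)).le)
  refine h5.trans (h6.trans (le_of_eq ?_))
  ring

/-- the dual functional as a sum over subsets -/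
theorem TT_pow {k lam ρ : ℝ} : ∀ {ps : List ℕ}, ps.Nodup → ∀ x y : ℝ,
    TT k lam ρ ps x y = ∑ D ∈ ps.toFinset.powerset, (∏ p ∈ D, 1 / ((p : ℝ) - 1)) *
      TT k lam ρ [] (x + ∑ p ∈ D, Real.log p) y := by
  classical
  intro ps
  induction ps with
  | nil =>
    intro _ x y
    simp
  | cons p ps ih =>
    intro hn x y
    rw [List.nodup_cons] at hn
    have hp : p ∉ ps.toFinset := fun h1 => hn.1 (List.mem_toFinset.1 h1)
    rw [List.toFinset_cons, sum_powerset_insert hp, ← ih hn.2]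
    conv_lhs => rw [TT]
    congr 1
    rw [ih hn.2, sum_div]
    refine sum_congr rfl fun D hD => ?_
    have hpD : p ∉ D := fun h1 => hp (mem_powerset.1 hD h1)
    rw [prod_insert hpD, sum_insert hpD, ← add_assoc]
    ring

open Classical in
/-- the dual functional is at most a sum over integers -/
theorem TT_int {k lam ρ η : ℝ} {P S : Finset ℕ} (hk : 1 ≤ k) (hl : ρ < lam) (hη : 0 ≤ η)
    (hP : ∀ p ∈ P, p.Prime) (hS : ∀ p ∈ S, p.Prime) (hPS : Disjoint P S)
    (hη' : ∀ p ∈ P, (p : ℝ) / (p - 1) ≤ Real.exp (η * Real.log p)) {y : ℝ} (hy0 : 0 ≤ y)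
    (hy : y ≤ ρ) :
    TT k lam ρ P.toList 0 y ≤ Real.exp (η * ρ) *
      ∑ d ∈ (Icc 1 ⌊Real.exp (ρ - y)⌋₊).filter (fun d => ∀ p ∈ S, ¬ p ∣ d),
        1 / (d : ℝ) * (1 / (lam - y + (k - 1) * Real.log d)) := by
  rw [TT_pow P.nodup_toList, Finset.toList_toFinset]
  set Z : Finset (Finset ℕ) := P.powerset.filter (fun D => ∑ p ∈ D, Real.log p ≤ ρ - y) with hZ
  have hD0 : ∀ D ∈ P.powerset, 0 < ∏ p ∈ D, p := fun D hD =>
    prod_pos fun p hp => (hP p (mem_powerset.1 hD hp)).pos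
  have hlog : ∀ D ∈ P.powerset, ∑ p ∈ D, Real.log p = Real.log ((∏ p ∈ D, p : ℕ) : ℝ) := by
    intro D hD
    rw [Nat.cast_prod, Real.log_prod]
    intro p hp
    exact_mod_cast (hP p (mem_powerset.1 hD hp)).pos.ne'
  have h1 : ∑ D ∈ P.powerset, (∏ p ∈ D, 1 / ((p : ℝ) - 1)) *
      TT k lam ρ [] (0 + ∑ p ∈ D, Real.log p) y =
      ∑ D ∈ Z, (∏ p ∈ D, 1 / ((p : ℝ) - 1)) *
        (1 / (lam - y + (k - 1) * ∑ p ∈ D, Real.log p)) := by
    rw [hZ, sum_filter]
    refine sum_congr rfl fun D _ => ?_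
    rw [TT, zero_add]
    by_cases h2 : ∑ p ∈ D, Real.log p ≤ ρ - y
    · rw [if_pos h2, if_pos (by linarith)]
    · rw [if_neg h2, if_neg (by intro h3; exact h2 (by linarith)), mul_zero]
  rw [h1]
  have h2 : ∀ D ∈ Z, (∏ p ∈ D, 1 / ((p : ℝ) - 1)) *
      (1 / (lam - y + (k - 1) * ∑ p ∈ D, Real.log p)) ≤ Real.exp (η * ρ) *
      (1 / ((∏ p ∈ D, p : ℕ) : ℝ) * (1 / (lam - y + (k - 1) * Real.log ((∏ p ∈ D, p : ℕ) : ℝ)))) := by
    intro D hD
    rw [hZ, mem_filter] at hD
    have hDP := mem_powerset.1 hD.1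
    have h3 : ∏ p ∈ D, 1 / ((p : ℝ) - 1) ≤ Real.exp (η * ρ) * (1 / ((∏ p ∈ D, p : ℕ) : ℝ)) := by
      have h4 : ∏ p ∈ D, 1 / ((p : ℝ) - 1) ≤ ∏ p ∈ D, Real.exp (η * Real.log p) * (1 / (p : ℝ)) := by
        refine prod_le_prod (fun p hp => ?_) fun p hp => ?_
        · have : (2 : ℝ) ≤ p := by exact_mod_cast (hP p (hDP hp)).two_le
          exact one_div_nonneg.2 (by linarith)
        · have h5 : (2 : ℝ) ≤ p := by exact_mod_cast (hP p (hDP hp)).two_le
          have h6 := mul_le_mul_of_nonneg_right (hη' p (hDP hp)) (by positivity : (0 : ℝ) ≤ 1 / p)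
          refine le_of_eq_of_le ?_ h6
          have h7 : (p : ℝ) - 1 ≠ 0 := by linarith
          have h8 : (p : ℝ) ≠ 0 := by linarith
          field_simp
      refine h4.trans ?_
      rw [prod_mul_distrib, ← Real.exp_sum, ← mul_sum, Nat.cast_prod, prod_div_distrib, prod_const_one]
      refine mul_le_mul_of_nonneg_right (Real.exp_le_exp.2 ?_) (by positivity)
      exact mul_le_mul_of_nonneg_left (by linarith [hD.2]) hη
    rw [hlog D hD.1, ← mul_assoc]
    refine mul_le_mul_of_nonneg_right h3 ?_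
    refine one_div_nonneg.2 ?_
    have h5 : 0 ≤ Real.log ((∏ p ∈ D, p : ℕ) : ℝ) := Real.log_natCast_nonneg _
    have h6 := mul_nonneg (by linarith : 0 ≤ k - 1) h5
    linarith
  refine (sum_le_sum h2).trans ?_
  rw [← mul_sum]
  refine mul_le_mul_of_nonneg_left ?_ (Real.exp_pos _).le
  -- the injection
  have hinj : Set.InjOn (fun D : Finset ℕ => ∏ p ∈ D, p) (Z : Set (Finset ℕ)) := by
    intro D hD D' hD' hDD
    rw [mem_coe, hZ, mem_filter, mem_powerset] at hD hD'
    have h3 : ∀ E : Finset ℕ, E ⊆ P → (∏ p ∈ E, p).primeFactors = E := by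
      intro E hE
      exact Nat.primeFactors_prod fun p hp => hP p (hE hp)
    have hDD' : ∏ p ∈ D, p = ∏ p ∈ D', p := hDD
    rw [← h3 D hD.1, ← h3 D' hD'.1, hDD']
  rw [← sum_image (f := fun d : ℕ => 1 / (d : ℝ) * (1 / (lam - y + (k - 1) * Real.log d))) hinj]
  refine sum_le_sum_of_subset_of_nonneg ?_ fun d hd _ => ?_
  · intro d hd
    obtain ⟨D, hD, rfl⟩ := mem_image.1 hd
    rw [hZ, mem_filter] at hD
    rw [mem_filter, mem_Icc]
    refine ⟨⟨hD0 D hD.1, ?_⟩, ?_⟩
    · refine Nat.le_floor ?_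
      have h3 := hD.2
      rw [hlog D hD.1] at h3
      rwa [Real.log_le_iff_le_exp (by exact_mod_cast hD0 D hD.1)] at h3
    · intro p hp hpD
      rw [(hS p hp).prime.dvd_finsetProd_iff] at hpD
      obtain ⟨q, hq, hpq⟩ := hpD
      have h3 := hP q (mem_powerset.1 hD.1 hq)
      have h4 := (Nat.prime_dvd_prime_iff_eq (hS p hp) h3).1 hpq
      exact (disjoint_left.1 hPS) (mem_powerset.1 hD.1 hq) (h4 ▸ hp)
  · have h5 : 0 ≤ Real.log (d : ℝ) := Real.log_natCast_nonneg _
    have h6 := mul_nonneg (by linarith : 0 ≤ k - 1) h5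
    refine mul_nonneg (by positivity) (one_div_nonneg.2 (by linarith))

end Pool.Agent.Y830.MO
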